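import Pool.Agent.Q206.Hyp.Form

/-! # The pointwise linear algebra -/

open scoped Matrix ComplexConjugate
open Matrix

set_option linter.unusedSectionVars false

namespace Pool.Agent.Q206.Hyp

variable {ι : Type*} [Fintype ι] [DecidableEq ι]

/-- `X` is a tangent vector at `P` of the space of self-adjoint idempotents. -/
def IsTan (G P X : Matrix ι ι ℂ) : Prop := adj G X = X ∧ P * X + X * P = X

lemma IsTan.add {G P X Y : Matrix ι ι ℂ} (hX : IsTan G P X) (hY : IsTan G P Y) :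
    IsTan G P (X + Y) :=
  ⟨by rw [adj_add, hX.1, hY.1], by
    rw [mul_add, add_mul]
    nth_rewrite 3 [← hX.2]
    nth_rewrite 3 [← hY.2]
    abel⟩

lemma IsTan.smul {G P X : Matrix ι ι ℂ} (hX : IsTan G P X) (r : ℝ) : IsTan G P (r • X) :=
  ⟨by rw [adj_real_smul, hX.1], by
    rw [mul_smul_comm, smul_mul_assoc, ← smul_add, hX.2]⟩

lemma IsTan.neg {G P X : Matrix ι ι ℂ} (hX : IsTan G P X) : IsTan G P (-X) :=
  ⟨by rw [adj_neg, hX.1], by
    nth_rewrite 3 [← hX.2]
    noncomm_ring⟩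

lemma IsTan.sub {G P X Y : Matrix ι ι ℂ} (hX : IsTan G P X) (hY : IsTan G P Y) :
    IsTan G P (X - Y) := by
  rw [sub_eq_add_neg]
  exact hX.add hY.neg

section tan

variable {G P X : Matrix ι ι ℂ} (hPP : P * P = P) (hX : IsTan G P X)

include hPP hX

/-- A tangent vector maps `im P` to `ker P` … -/
lemma tan_ker {a : ι → ℂ} (ha : P *ᵥ a = a) : P *ᵥ (X *ᵥ a) = 0 := by
  have h := congrArg (· *ᵥ a) hX.2
  simp only [add_mulVec, ← mulVec_mulVec, ha] at h
  simpa using h

/-- … and `ker P` to `im P`. -/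
lemma tan_im {e : ι → ℂ} (he : P *ᵥ e = 0) : P *ᵥ (X *ᵥ e) = X *ᵥ e := by
  have h := congrArg (· *ᵥ e) hX.2
  simp only [add_mulVec, ← mulVec_mulVec, he] at h
  simpa using h

end tan

lemma tan_eq_zero {G P X : Matrix ι ι ℂ} (hG : Gᴴ = G) (hGG : G * G = 1) (hPP : P * P = P)
    (hPa : adj G P = P) (hX : IsTan G P X) (h : ∀ a, P *ᵥ a = a → X *ᵥ a = 0) : X = 0 := by
  have h1 : X * P = 0 := by
    ext i j
    have h2 : P *ᵥ (P *ᵥ Pi.single j 1) = P *ᵥ Pi.single j 1 := by rw [mulVec_mulVec, hPP]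
    have h3 := congrFun (h _ h2) i
    rw [mulVec_mulVec] at h3
    simpa using h3
  have h2 : P * X = 0 := by
    have := congrArg (adj G) h1
    rw [adj_mul hGG, hX.1, hPa] at this
    simpa [adj] using this
  rw [← hX.2, h1, h2, add_zero]

variable {G P N Z : Matrix ι ι ℂ}

/-- orthogonality of `im P` and `ker P` -/
lemma form_orth (hG : Gᴴ = G) (hGG : G * G = 1) (hPa : adj G P = P) {a e : ι → ℂ}
    (ha : P *ᵥ a = a) (he : P *ᵥ e = 0) : form G a e = 0 := by
  rw [← ha, form_mulVec_left hGG, hPa, he, form_zero_right]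

lemma form_orth' (hG : Gᴴ = G) (hGG : G * G = 1) (hPa : adj G P = P) {a e : ι → ℂ}
    (ha : P *ᵥ a = a) (he : P *ᵥ e = 0) : form G e a = 0 := by
  rw [form_conj hG a e, form_orth hG hGG hPa ha he, map_zero]

/-- The tangent vector `|e⟩⟨a| + |a⟩⟨e|`. -/
def tv (G : Matrix ι ι ℂ) (e a : ι → ℂ) : Matrix ι ι ℂ := ket G e a + ket G a e

lemma tv_tan (hG : Gᴴ = G) (hGG : G * G = 1) (hPa : adj G P = P) {a e : ι → ℂ}
    (ha : P *ᵥ a = a) (he : P *ᵥ e = 0) : IsTan G P (tv G e a) := by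
  constructor
  · rw [tv, adj_add, adj_ket hG hGG, adj_ket hG hGG, add_comm]
  · rw [tv, mul_add, add_mul, mul_ket, mul_ket, ket_mul hG hGG, ket_mul hG hGG, hPa, ha, he,
      ket_zero_left, ket_zero_right]
    abel

lemma trace_tv (hG : Gᴴ = G) (hGG : G * G = 1) (hNa : adj G N = N) (e a : ι → ℂ) :
    trace (tv G e a * N) = form G (N *ᵥ a) e + form G (N *ᵥ e) a := by
  rw [tv, add_mul, ket_mul hG hGG, ket_mul hG hGG, hNa, trace_add, trace_ket, trace_ket]

lemma trace_tv_re (hG : Gᴴ = G) (hGG : G * G = 1) (hNa : adj G N = N) (e a : ι → ℂ) :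
    (trace (tv G e a * N)).re = 2 * (form G (N *ᵥ a) e).re := by
  rw [trace_tv hG hGG hNa, form_mulVec_left hGG N e a, hNa, form_conj hG (N *ᵥ a) e]
  simp
  ring

/-- The trace of the curvature expression for the special tangent vectors. -/
lemma trace_key (hG : Gᴴ = G) (hGG : G * G = 1) (hPP : P * P = P) (hPa : adj G P = P)
    {W : Matrix ι ι ℂ} (hW : IsTan G P W) (hZ : IsTan G P Z) {a b e : ι → ℂ} (ha : P *ᵥ a = a)
    (hb : P *ᵥ b = b) (he : P *ᵥ e = 0) (hZe : Z *ᵥ e = 0) :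
    trace ((W * tv G e a + tv G e a * W) * (tv G e b * Z + Z * tv G e b)) =
      form G e e * (form G (Z *ᵥ b) (W *ᵥ a) + form G (W *ᵥ a) (Z *ᵥ b)) := by
  have hZb : P *ᵥ (Z *ᵥ b) = 0 := tan_ker hPP hZ hb
  have hWa : P *ᵥ (W *ᵥ a) = 0 := tan_ker hPP hW ha
  have hWe : P *ᵥ (W *ᵥ e) = W *ᵥ e := tan_im hPP hW he
  have h1 : tv G e b * Z + Z * tv G e b = ket G e (Z *ᵥ b) + ket G (Z *ᵥ b) e := by
    rw [tv, add_mul, mul_add, ket_mul hG hGG, ket_mul hG hGG, mul_ket, mul_ket, hZ.1, hZe,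
      ket_zero_right, ket_zero_left]
    abel
  have h2 : W * tv G e a + tv G e a * W = ket G (W *ᵥ e) a + ket G (W *ᵥ a) e
      + (ket G e (W *ᵥ a) + ket G a (W *ᵥ e)) := by
    rw [tv, add_mul, mul_add, ket_mul hG hGG, ket_mul hG hGG, mul_ket, mul_ket, hW.1]
  have o1 : form G a e = 0 := form_orth hG hGG hPa ha he
  have o2 : form G a (Z *ᵥ b) = 0 := form_orth hG hGG hPa ha hZb
  have o3 : form G e (Z *ᵥ b) = 0 := by
    have := form_mulVec_left hGG Z e b
    rw [hZe, form_zero_left, hZ.1] at this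
    exact this.symm
  have o4 : form G (Z *ᵥ b) e = 0 := by rw [form_conj hG e, o3, map_zero]
  have o5 : form G (W *ᵥ e) (Z *ᵥ b) = 0 := form_orth hG hGG hPa hWe hZb
  have o6 : form G (W *ᵥ e) e = 0 := form_orth hG hGG hPa hWe he
  rw [h1, h2]
  simp only [add_mul, mul_add, ket_mul_ket, trace_add, trace_smul, trace_ket, o1, o2, o3, o4, o5,
    o6, smul_eq_mul, zero_mul, mul_zero, add_zero, zero_add]
  ring

/-- The main relation. -/
lemma rel (hG : Gᴴ = G) (hGG : G * G = 1) (hPP : P * P = P) (hPa : adj G P = P)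
    (hN : IsTan G P N) (hZ : IsTan G P Z)
    {ε : ℝ} (hNN : ε * (trace (N * N)).re = 1)
    (hdef : ∀ x, P *ᵥ x = 0 → x ≠ 0 → (form G x x).re ≠ 0)
    {a b e : ι → ℂ} (ha : P *ᵥ a = a) (hb : P *ᵥ b = b) (he : P *ᵥ e = 0) (he0 : e ≠ 0)
    (hZe : Z *ᵥ e = 0)
    (H : ∀ W, IsTan G P W → ε * (trace (W * N)).re = 0 →
      (trace ((W * tv G e a + tv G e a * W) * (tv G e b * Z + Z * tv G e b))).re =
      (trace ((W * tv G e b + tv G e b * W) * (tv G e a * Z + Z * tv G e a))).re) :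
    ∃ r : ℝ, ∀ c, P *ᵥ c = c →
      form G a c • (Z *ᵥ b) - form G b c • (Z *ᵥ a) = (r : ℂ) • (N *ᵥ c) := by
  have hee : (form G e e).re ≠ 0 := hdef e he he0
  have heim : (form G e e).im = 0 := by
    have := form_conj hG e e
    have h2 := congrArg Complex.im this
    simp at h2
    linarith
  -- the functional `L`
  set L : Matrix ι ι ℂ → ℝ := fun W =>
    (form G (Z *ᵥ b) (W *ᵥ a)).re - (form G (Z *ᵥ a) (W *ᵥ b)).re with hL
  have Lsub : ∀ W W' : Matrix ι ι ℂ, L (W - W') = L W - L W' := by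
    intro W W'
    simp only [hL, sub_mulVec, form_sub_right, Complex.sub_re]
    ring
  have Lsmul : ∀ (r : ℝ) (W : Matrix ι ι ℂ), L (r • W) = r * L W := by
    intro r W
    have h1 : ∀ x : ι → ℂ, (r • W) *ᵥ x = (r : ℂ) • (W *ᵥ x) := by
      intro x
      rw [smul_mulVec]
      ext i
      simp
    simp only [hL, h1, form_smul_right, Complex.re_ofReal_mul]
    ring
  have L0 : ∀ W, IsTan G P W → ε * (trace (W * N)).re = 0 → L W = 0 := by
    intro W hW hWN
    have h := H W hW hWN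
    rw [trace_key hG hGG hPP hPa hW hZ ha hb he hZe, trace_key hG hGG hPP hPa hW hZ hb ha he hZe,
      form_conj hG (Z *ᵥ b) (W *ᵥ a), form_conj hG (Z *ᵥ a) (W *ᵥ b)] at h
    simp only [Complex.mul_re, Complex.add_re, Complex.add_im, Complex.conj_re, Complex.conj_im,
      heim, zero_mul, sub_zero] at h
    have h3 : (form G e e).re * (2 * L W) = 0 := by
      simp only [hL]
      linarith
    rcases mul_eq_zero.1 h3 with h4 | h4
    · exact absurd h4 hee
    · linarith
  have L1 : ∀ W, IsTan G P W → L W = ε * (trace (W * N)).re * L N := by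
    intro W hW
    have h1 : IsTan G P (W - (ε * (trace (W * N)).re) • N) := hW.sub (hN.smul _)
    have h2 := L0 _ h1 (by
      rw [sub_mul, smul_mul_assoc, trace_sub, trace_smul, Complex.sub_re, Complex.real_smul,
        Complex.re_ofReal_mul, mul_sub]
      linear_combination (- ε * (trace (W * N)).re) * hNN)
    rw [Lsub, Lsmul] at h2
    linarith
  refine ⟨2 * ε * L N, fun c hc => ?_⟩
  set v := form G a c • (Z *ᵥ b) - form G b c • (Z *ᵥ a) - ((2 * ε * L N : ℝ) : ℂ) • (N *ᵥ c)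
    with hv
  have hvk : P *ᵥ v = 0 := by
    rw [hv, mulVec_sub, mulVec_sub, mulVec_smul, mulVec_smul, mulVec_smul, tan_ker hPP hZ hb,
      tan_ker hPP hZ ha, tan_ker hPP hN hc]
    simp
  have hvf : (form G v v).re = 0 := by
    have h1 := L1 (tv G v c) (tv_tan hG hGG hPa hc hvk)
    rw [trace_tv_re hG hGG hN.1] at h1
    have w1 : ∀ x, P *ᵥ x = x → tv G v c *ᵥ x = form G c x • v := by
      intro x hx
      rw [tv, add_mulVec, ket_mulVec, ket_mulVec, form_orth' hG hGG hPa hx hvk, zero_smul,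
        add_zero]
    simp only [hL] at h1
    rw [w1 a ha, w1 b hb] at h1
    have h2 : form G v v = conj (form G a c) * form G (Z *ᵥ b) v
        - conj (form G b c) * form G (Z *ᵥ a) v
        - ((2 * ε * L N : ℝ) : ℂ) * form G (N *ᵥ c) v := by
      conv_lhs => rw [hv]
      rw [form_sub_left, form_sub_left, form_smul_left, form_smul_left, form_smul_left,
        Complex.conj_ofReal]
    rw [h2, ← form_conj hG, ← form_conj hG, Complex.sub_re, Complex.sub_re,
      Complex.re_ofReal_mul]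
    rw [form_smul_right, form_smul_right] at h1
    simp only [hL]
    linarith
  have hv0 : v = 0 := by
    by_contra hne
    exact hdef v hvk hne hvf
  exact sub_eq_zero.1 hv0

end Pool.Agent.Q206.Hyp
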