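import Pool.Agent.Q206.Hyp.Alg

/-! # The contradiction -/

open scoped Matrix ComplexConjugate
open Matrix Module

set_option linter.unusedSectionVars false

namespace Pool.Agent.Q206.Hyp

variable {ι : Type*} [Fintype ι] [DecidableEq ι]

lemma finrank_range_of_trace {P : Matrix ι ι ℂ} (hPP : P * P = P) {k : ℕ}
    (ht : trace P = k) : finrank ℂ (LinearMap.range (toLin' P)) = k := by
  have h1 : LinearMap.IsProj (LinearMap.range (toLin' P)) (toLin' P) := by
    constructor
    · intro x
      exact LinearMap.mem_range_self _ x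
    · rintro _ ⟨y, rfl⟩
      simp only [toLin'_apply, mulVec_mulVec, hPP]
  have h2 := h1.trace
  rw [trace_toLin'_eq, ht] at h2
  exact_mod_cast h2.symm

lemma finrank_ker_of_trace {P : Matrix ι ι ℂ} (hPP : P * P = P) {k : ℕ}
    (ht : trace P = k) : k + finrank ℂ (LinearMap.ker (toLin' P)) = Fintype.card ι := by
  have h1 := LinearMap.finrank_range_add_finrank_ker (toLin' P)
  rw [finrank_range_of_trace hPP ht] at h1
  simpa using h1

lemma mem_range_iff {P : Matrix ι ι ℂ} (hPP : P * P = P) {x : ι → ℂ} :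
    x ∈ LinearMap.range (toLin' P) ↔ P *ᵥ x = x := by
  constructor
  · rintro ⟨y, rfl⟩
    simp only [toLin'_apply, mulVec_mulVec, hPP]
  · intro h
    exact ⟨x, by rw [toLin'_apply, h]⟩

lemma exists_ker (V : Submodule ℂ (ι → ℂ)) (h : 1 < finrank ℂ V) (φ : V →ₗ[ℂ] ℂ) :
    ∃ a : V, a ≠ 0 ∧ φ a = 0 := by
  have h1 : LinearMap.ker φ ≠ ⊥ := LinearMap.ker_ne_bot_of_finrank_lt (by simpa using h)
  obtain ⟨a, ha, ha0⟩ := (Submodule.ne_bot_iff _).1 h1
  exact ⟨a, ha0, ha⟩

lemma exists_e {G P N : Matrix ι ι ℂ} (hPP : P * P = P) (ht : trace P = 2)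
    (hcard : 4 < Fintype.card ι) (hN : IsTan G P N) :
    ∃ e : ι → ℂ, P *ᵥ e = 0 ∧ N *ᵥ e = 0 ∧ e ≠ 0 := by
  have hr : finrank ℂ (LinearMap.range (toLin' P)) = 2 :=
    finrank_range_of_trace hPP (by exact_mod_cast ht)
  have hk : 2 + finrank ℂ (LinearMap.ker (toLin' P)) = Fintype.card ι :=
    finrank_ker_of_trace hPP (by exact_mod_cast ht)
  let φ : LinearMap.ker (toLin' P) →ₗ[ℂ] LinearMap.range (toLin' P) :=
    LinearMap.codRestrict _ ((toLin' N).comp (Submodule.subtype _)) (by
      intro e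
      have he : P *ᵥ (e : ι → ℂ) = 0 := by
        have := e.2
        rwa [LinearMap.mem_ker, toLin'_apply] at this
      rw [mem_range_iff hPP]
      simp only [LinearMap.comp_apply, Submodule.subtype_apply, toLin'_apply]
      exact tan_im hPP hN he)
  have h1 : LinearMap.ker φ ≠ ⊥ := LinearMap.ker_ne_bot_of_finrank_lt (by omega)
  obtain ⟨e, he, he0⟩ := (Submodule.ne_bot_iff _).1 h1
  refine ⟨e, ?_, ?_, ?_⟩
  · have := e.2
    rwa [LinearMap.mem_ker, toLin'_apply] at this
  · rw [LinearMap.mem_ker] at he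
    have := congrArg (Submodule.subtype _) he
    simpa [φ] using this
  · intro h
    exact he0 (Subtype.ext h)

lemma tv_add (G : Matrix ι ι ℂ) (e a b : ι → ℂ) : tv G e (a + b) = tv G e a + tv G e b := by
  rw [tv, tv, tv, ket_add_left, ket_add_right]
  abel

lemma tv_smul (G : Matrix ι ι ℂ) (z : ℂ) (e a : ι → ℂ) :
    tv G e (z • a) = z.re • tv G e a + z.im • tv G e (Complex.I • a) := by
  have h : ∀ (r : ℝ) (M : Matrix ι ι ℂ), r • M = (r : ℂ) • M := by
    intro r M
    ext i j
    simp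
  rw [tv, tv, tv, ket_smul_left, ket_smul_right, ket_smul_left, ket_smul_right, h, h]
  conv_lhs => rw [← Complex.re_add_im z]
  simp only [map_add, map_mul, Complex.conj_I, Complex.conj_ofReal]
  module

/-- **The contradiction.** -/
theorem key {G P N Z C : Matrix ι ι ℂ} (hG : Gᴴ = G) (hGG : G * G = 1) (hPP : P * P = P)
    (hPa : adj G P = P) (ht : trace P = 2) (hcard : 4 < Fintype.card ι)
    (hN : IsTan G P N) (hZ : IsTan G P Z) (hC : IsTan G P C) (hZ0 : Z ≠ 0)
    {ε : ℝ} (hNN : ε * (trace (N * N)).re = 1)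
    (hdef : ∀ x, P *ᵥ x = 0 → x ≠ 0 → (form G x x).re ≠ 0)
    (hdef' : ∀ x, P *ᵥ x = x → x ≠ 0 → (form G x x).re ≠ 0)
    (hZe : ∀ e, P *ᵥ e = 0 → N *ᵥ e = 0 → Z *ᵥ e = 0)
    (hCe : ∀ e, P *ᵥ e = 0 → N *ᵥ e = 0 → C *ᵥ e = 0)
    (β : Matrix ι ι ℂ →ₗ[ℝ] ℝ)
    (H : ∀ A B, IsTan G P A → IsTan G P B → ε * (trace (A * N)).re = 0 →
      ε * (trace (B * N)).re = 0 → ε * (trace (A * C)).re = 0 → ε * (trace (B * C)).re = 0 →
      β A = 0 → β B = 0 → ∀ W, IsTan G P W → ε * (trace (W * N)).re = 0 →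
      (trace ((W * A + A * W) * (B * Z + Z * B))).re =
      (trace ((W * B + B * W) * (A * Z + Z * A))).re) : False := by
  obtain ⟨e, he, hNe, he0⟩ := exists_e hPP ht hcard hN
  have hr : finrank ℂ (LinearMap.range (toLin' P)) = 2 :=
    finrank_range_of_trace hPP (by exact_mod_cast ht)
  set V := LinearMap.range (toLin' P) with hV
  have Ze := hZe e he hNe
  have Ce := hCe e he hNe
  -- the relation
  have REL : ∀ a b, P *ᵥ a = a → P *ᵥ b = b → β (tv G e a) = 0 → β (tv G e b) = 0 →
      ∃ r : ℝ, ∀ c, P *ᵥ c = c →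
        form G a c • (Z *ᵥ b) - form G b c • (Z *ᵥ a) = (r : ℂ) • (N *ᵥ c) := by
    intro a b ha hb hβa hβb
    have t1 : ∀ (M : Matrix ι ι ℂ) (a : ι → ℂ), IsTan G P M → M *ᵥ e = 0 →
        ε * (trace (tv G e a * M)).re = 0 := by
      intro M a hM hMe
      rw [trace_tv_re hG hGG hM.1, form_mulVec_left hGG, hM.1, hMe, form_zero_right]
      simp
    exact rel hG hGG hPP hPa hN hZ hNN hdef ha hb he he0 Ze fun W hW hWN =>
      H _ _ (tv_tan hG hGG hPa ha he) (tv_tan hG hGG hPa hb he) (t1 N a hN hNe) (t1 N b hN hNe)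
        (t1 C a hC Ce) (t1 C b hC Ce) hβa hβb W hW hWN
  -- the complex functional
  let ℓ : V →ₗ[ℂ] ℂ :=
    { toFun := fun a => (β (tv G e a) : ℂ) - Complex.I * β (tv G e (Complex.I • (a : ι → ℂ)))
      map_add' := by
        intro a b
        simp only [Submodule.coe_add, smul_add, tv_add, map_add, Complex.ofReal_add]
        ring
      map_smul' := by
        intro z a
        have h1 : β (tv G e (z • (a : ι → ℂ))) = z.re * β (tv G e a) +
            z.im * β (tv G e (Complex.I • (a : ι → ℂ))) := by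
          rw [tv_smul, map_add, map_smul, map_smul, smul_eq_mul, smul_eq_mul]
        have h2 : β (tv G e (Complex.I • z • (a : ι → ℂ))) = -z.im * β (tv G e a) +
            z.re * β (tv G e (Complex.I • (a : ι → ℂ))) := by
          rw [smul_smul, tv_smul, map_add, map_smul, map_smul, smul_eq_mul, smul_eq_mul]
          simp
        simp only [Submodule.coe_smul, h1, h2, RingHom.id_apply, smul_eq_mul]
        conv_rhs => rw [← Complex.re_add_im z]
        push_cast
        linear_combination (z.im : ℂ) * ((β (tv G e (Complex.I • (a : ι → ℂ))) : ℝ) : ℂ) *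
          Complex.I_sq }
  have hℓ : ∀ a : V, β (tv G e a) = (ℓ a).re := by
    intro a
    simp [ℓ]
  obtain ⟨a0, ha0, hℓa⟩ := exists_ker V (by omega) ℓ
  -- the orthogonal functional
  let ψ : V →ₗ[ℂ] ℂ :=
    { toFun := fun c => form G a0 c
      map_add' := by
        intro a b
        simp only [Submodule.coe_add, form_add_right]
      map_smul' := by
        intro z a
        simp only [Submodule.coe_smul, form_smul_right, RingHom.id_apply, smul_eq_mul] }
  obtain ⟨b0, hb0, hψb⟩ := exists_ker V (by omega) ψ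
  -- the multiple of b0
  obtain ⟨z, hz0, hz⟩ : ∃ z : ℂ, z ≠ 0 ∧ (z * ℓ b0).re = 0 := by
    by_cases h : ℓ b0 = 0
    · exact ⟨1, one_ne_zero, by simp [h]⟩
    · refine ⟨Complex.I * conj (ℓ b0), mul_ne_zero Complex.I_ne_zero (by simpa using h), ?_⟩
      simp
      ring
  have mem : ∀ a : V, P *ᵥ (a : ι → ℂ) = a := fun a => (mem_range_iff hPP).1 a.2
  set b : V := z • b0 with hb
  have hbne : b ≠ 0 := smul_ne_zero hz0 hb0
  have hβb : β (tv G e b) = 0 := by
    rw [hℓ, hb, map_smul, smul_eq_mul, hz]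
  have hβa : β (tv G e a0) = 0 := by rw [hℓ, hℓa, Complex.zero_re]
  set a1 : V := Complex.I • a0 with ha1
  have hβa1 : β (tv G e a1) = 0 := by
    rw [hℓ, ha1, map_smul, hℓa, smul_zero, Complex.zero_re]
  have hab : form G a0 b = 0 := by
    have : ψ b = 0 := by rw [hb, map_smul, hψb, smul_zero]
    exact this
  have hba : form G b a0 = 0 := by rw [form_conj hG, hab, map_zero]
  have ha0' : (a0 : ι → ℂ) ≠ 0 := fun h => ha0 (Subtype.ext h)
  have hb' : (b : ι → ℂ) ≠ 0 := fun h => hbne (Subtype.ext h)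
  have haa : form G a0 a0 ≠ 0 := fun h => hdef' _ (mem a0) ha0' (by rw [h, Complex.zero_re])
  have hbb : form G b b ≠ 0 := fun h => hdef' _ (mem b) hb' (by rw [h, Complex.zero_re])
  have ha1c : (a1 : ι → ℂ) = Complex.I • (a0 : ι → ℂ) := rfl
  obtain ⟨r1, R1⟩ := REL a0 a1 (mem a0) (mem a1) hβa hβa1
  obtain ⟨r2, R2⟩ := REL a0 b (mem a0) (mem b) hβa hβb
  obtain ⟨r3, R3⟩ := REL a1 b (mem a1) (mem b) hβa1 hβb
  have hfa1 : ∀ c, form G a1 c = -Complex.I * form G a0 c := by
    intro c
    rw [ha1c, form_smul_left, Complex.conj_I]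
  have hZa1 : Z *ᵥ (a1 : ι → ℂ) = Complex.I • (Z *ᵥ (a0 : ι → ℂ)) := by
    rw [ha1c, mulVec_smul]
  simp only [hfa1, hZa1] at R1 R3
  by_cases hZa : Z *ᵥ (a0 : ι → ℂ) = 0
  · -- second case
    have hZb : Z *ᵥ (b : ι → ℂ) ≠ 0 := by
      intro hZb
      apply hZ0
      refine tan_eq_zero hG hGG hPP hPa hZ fun c hc => ?_
      -- `a0`, `b` span `V`
      have hli : LinearIndependent ℂ ![a0, b] := by
        rw [LinearIndependent.pair_iff]
        intro s t hst
        have h1 : s • (a0 : ι → ℂ) + t • (b : ι → ℂ) = 0 := by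
          have := congrArg (Submodule.subtype _) hst
          simpa using this
        have h2 := congrArg (form G a0) h1
        rw [form_add_right, form_smul_right, form_smul_right, hab, form_zero_right, mul_zero,
          add_zero] at h2
        have h3 := congrArg (form G b) h1
        rw [form_add_right, form_smul_right, form_smul_right, hba, form_zero_right, mul_zero,
          zero_add] at h3
        exact ⟨(mul_eq_zero.1 h2).resolve_right haa, (mul_eq_zero.1 h3).resolve_right hbb⟩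
      have hsp := hli.span_eq_top_of_card_eq_finrank (by simp [hr])
      have hc' : (⟨c, (mem_range_iff hPP).2 hc⟩ : V) ∈ Submodule.span ℂ (Set.range ![a0, b]) := by
        rw [hsp]; trivial
      rw [Matrix.range_cons, Matrix.range_cons, Matrix.range_empty, Set.union_empty,
        Set.singleton_union, Submodule.mem_span_pair] at hc'
      obtain ⟨s, t, hst⟩ := hc'
      have h1 : s • (a0 : ι → ℂ) + t • (b : ι → ℂ) = c := by
        have := congrArg (Submodule.subtype _) hst
        simpa using this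
      rw [← h1, mulVec_add, mulVec_smul, mulVec_smul, hZa, hZb, smul_zero, smul_zero, add_zero]
    have e2 := R2 a0 (mem a0)
    have e3 := R3 a0 (mem a0)
    rw [hZa, smul_zero, sub_zero] at e2
    rw [hZa, smul_zero, smul_zero, sub_zero, mul_smul, e2, smul_smul] at e3
    have hNa : N *ᵥ (a0 : ι → ℂ) ≠ 0 := by
      intro h
      rw [h, smul_zero] at e2
      exact hZb ((smul_eq_zero.1 e2).resolve_left haa)
    have h4 : (-Complex.I * (r2 : ℂ)) = (r3 : ℂ) := by
      have : (-Complex.I * (r2 : ℂ) - (r3 : ℂ)) • (N *ᵥ (a0 : ι → ℂ)) = 0 := by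
        rw [sub_smul, e3, sub_self]
      exact sub_eq_zero.1 ((smul_eq_zero.1 this).resolve_right hNa)
    have h5 : r2 = 0 := by
      have := congrArg Complex.im h4
      simpa using this
    rw [h5, Complex.ofReal_zero, zero_smul] at e2
    exact hZb ((smul_eq_zero.1 e2).resolve_left haa)
  · -- first case
    have e1 := R1 a0 (mem a0)
    have e1b := R1 b (mem b)
    rw [hab] at e1b
    simp only [zero_smul, mul_zero, sub_zero] at e1b
    have hr1 : (r1 : ℂ) ≠ 0 := by
      intro h
      rw [h, zero_smul, smul_smul, ← sub_smul] at e1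
      have h2 := (smul_eq_zero.1 e1).resolve_right hZa
      apply haa
      have h3 : form G a0 a0 * (2 * Complex.I) = 0 := by linear_combination h2
      exact (mul_eq_zero.1 h3).resolve_right (mul_ne_zero two_ne_zero Complex.I_ne_zero)
    have hNb : N *ᵥ (b : ι → ℂ) = 0 := (smul_eq_zero.1 e1b.symm).resolve_left hr1
    have e2 := R2 b (mem b)
    rw [hab, hNb, zero_smul, smul_zero, zero_sub, neg_eq_zero] at e2
    exact hZa ((smul_eq_zero.1 e2).resolve_left hbb)

end Pool.Agent.Q206.Hyp
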