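import Pool.Agent.Q206.Hyp.Gauss
import Pool.Agent.Q206.Hyp.Key

/-!
# Real hypersurfaces of the two-plane Grassmannians

The complex two-plane Grassmannian `G₂(ℂ^{m+2}) = SU(m+2)/S(U(2)×U(m))` and its noncompact dual
`SU(2,m)/S(U(2)×U(m))` are both described as spaces of orthogonal projections `P` of `ℂ^{m+2}` onto
complex 2-planes, orthogonal with respect to the Hermitian form `form (gram s m) x y = x* G y` where
`G = 1` (compact case) or `G = diag(1,1,-1,…,-1)` (noncompact case); in the noncompact case the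
2-planes are those on which the form is positive definite. A tangent vector at `P` is a self-adjoint
matrix `X` (for the form) with `P X + X P = X`.

* metric: `⟨X, Y⟩ = ± Re tr (X Y)` (`+` in the compact case, `-` in the noncompact case); it is the
  invariant Riemannian metric, unique up to a constant factor;
* complex structure: `J X = i (P X - X P)`;
* quaternionic Kähler structure: `J_q X = X q - q X`, where `q` is a skew-adjoint trace-free
  endomorphism of the plane `im P` with `q² = -P` (the unit sphere of `su(2)`).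

The Levi-Civita connection of a submanifold is the tangential part of the flat derivative.
-/

open scoped Matrix ComplexConjugate ContDiff Matrix.Norms.Operator Topology
open Matrix

namespace Pool.Agent.Q206.Hyp

/-- The two ambient spaces: the complex two-plane Grassmannian `G₂(ℂ^{m+2})` and the complex
hyperbolic two-plane Grassmannian `SU(2,m)/S(U(2)×U(m))`. -/
inductive Space
  | compact
  | noncompact

/-- Complex `(m+2) × (m+2)` matrices. (The norm used for derivatives is the operator norm; only the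
topology matters.) -/
abbrev Mat (m : ℕ) : Type := Matrix (Fin (m + 2)) (Fin (m + 2)) ℂ

/-- `ℝ^{4m-1}`, the parameter space of the hypersurfaces. -/
abbrev Rn (m : ℕ) : Type := EuclideanSpace ℝ (Fin (4 * m - 1))

/-- `+1` in the compact case, `-1` in the noncompact case. -/
def Space.sign : Space → ℝ
  | .compact => 1
  | .noncompact => -1

/-- The Gram matrix of the Hermitian form of `ℂ^{m+2}`: the identity in the compact case,
`diag(1, 1, -1, …, -1)` in the noncompact case. -/
def gram (s : Space) (m : ℕ) : Mat m :=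
  diagonal fun i => if i.val < 2 then 1 else (s.sign : ℂ)

/-- `P` is a point of the ambient space: the orthogonal projection onto a 2-plane on which the form
is positive definite, the form times `s.sign` being positive definite on the orthogonal complement
(both are automatic in the compact case). -/
def IsPlane (s : Space) {m : ℕ} (P : Mat m) : Prop :=
  P * P = P ∧ adj (gram s m) P = P ∧ trace P = 2 ∧
    (∀ x, x ≠ 0 → P *ᵥ x = x → 0 < (form (gram s m) x x).re) ∧
    ∀ x, x ≠ 0 → P *ᵥ x = 0 → 0 < s.sign * (form (gram s m) x x).re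

/-- The metric `± Re tr (X Y)` of the ambient space. -/
def metric (s : Space) {m : ℕ} (X Y : Mat m) : ℝ := s.sign * (trace (X * Y)).re

/-- The complex structure `J X = i (P X - X P)` on the tangent space at `P`. -/
def cplx {m : ℕ} (P X : Mat m) : Mat m := Complex.I • (P * X - X * P)

/-- `q` is a unit element of the `su(2)` of the plane `im P`. -/
def IsUnitQuat (s : Space) {m : ℕ} (P q : Mat m) : Prop :=
  P * q = q ∧ q * P = q ∧ adj (gram s m) q = -q ∧ trace q = 0 ∧ q * q = -P

/-- The almost complex structure `J_q X = X q - q X` of the quaternionic Kähler structure. -/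
def quat {m : ℕ} (q X : Mat m) : Mat m := X * q - q * X

/-- A (parametrised piece of a) real hypersurface with smooth unit normal field: an immersion `f`
of a connected open set `U ⊆ ℝ^{4m-1}` into the space of projections whose differential at `u` has
image the orthogonal complement of the unit vector `N u` in the tangent space at `f u`. -/
structure Hypersurface (s : Space) (m : ℕ) where
  /-- the domain -/
  U : Set (Rn m)
  isOpen : IsOpen U
  connected : IsConnected U
  /-- the immersion -/
  f : Rn m → Mat m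
  /-- the unit normal field -/
  N : Rn m → Mat m
  smooth_f : ContDiffOn ℝ ∞ f U
  smooth_N : ContDiffOn ℝ ∞ N U
  mem : ∀ u ∈ U, IsPlane s (f u)
  immersion : ∀ u ∈ U, Function.Injective (fderiv ℝ f u)
  tangent_N : ∀ u ∈ U, IsTan (gram s m) (f u) (N u)
  unit_N : ∀ u ∈ U, metric s (N u) (N u) = 1
  image : ∀ u ∈ U, Set.range (fderiv ℝ f u) =
    {V | IsTan (gram s m) (f u) V ∧ metric s V (N u) = 0}

namespace Hypersurface

variable {s : Space} {m : ℕ} (M : Hypersurface s m)

/-- The tangent vector of the hypersurface at `u` represented by `X`. -/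
noncomputable def d (u X : Rn m) : Mat m := fderiv ℝ M.f u X

/-- The orthogonal projection onto the tangent space of the hypersurface at `u`. -/
noncomputable def proj (u : Rn m) (V : Mat m) : Mat m :=
  M.f u * V * (1 - M.f u) + (1 - M.f u) * V * M.f u - metric s V (M.N u) • M.N u

/-- The Levi-Civita derivative `∇_X Z` of a tangent vector field `Z`. -/
noncomputable def nabla (X : Rn m) (Z : Rn m → Mat m) : Rn m → Mat m :=
  fun u => M.proj u (fderiv ℝ Z u X)

/-- The Riemannian curvature `R(X, Y) Z = ∇_X ∇_Y Z - ∇_Y ∇_X Z` of the hypersurface, for constant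
vector fields `X`, `Y` of the parameter domain (so `[X, Y] = 0`). -/
noncomputable def R (X Y : Rn m) (Z : Rn m → Mat m) : Rn m → Mat m :=
  fun u => M.nabla X (M.nabla Y Z) u - M.nabla Y (M.nabla X Z) u

/-- The shape operator: `A X = -∇̄_X N`, where `∇̄` is the Levi-Civita connection of the ambient
space (the derivative projected to the tangent space at `f u`). -/
noncomputable def A (u X : Rn m) : Mat m :=
  -(M.f u * fderiv ℝ M.N u X * (1 - M.f u) + (1 - M.f u) * fderiv ℝ M.N u X * M.f u)

/-- The structure vector field `ξ = -J N`. -/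
noncomputable def ξ : Rn m → Mat m := fun u => -cplx (M.f u) (M.N u)

/-- The 1-form `η(X) = ⟨X, ξ⟩`. -/
noncomputable def η (u X : Rn m) : ℝ := metric s (M.d u X) (M.ξ u)

/-- `φ V`, the tangential part of `J V`, for a tangent vector `V` at `f u`. -/
noncomputable def φ (u : Rn m) (V : Mat m) : Mat m :=
  cplx (M.f u) V - metric s V (M.ξ u) • M.N u

/-- A local section (over all of `U`) of the unit sphere bundle of the quaternionic Kähler
structure, for example a member of a local orthonormal frame `J₁, J₂, J₃`. -/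
structure QuatSection where
  /-- the section -/
  q : Rn m → Mat m
  smooth_q : ContDiffOn ℝ ∞ q M.U
  unit_q : ∀ u ∈ M.U, IsUnitQuat s (M.f u) (q u)

/-- The structure vector field `ξ_q = -J_q N`. -/
noncomputable def ξq (q : M.QuatSection) : Rn m → Mat m := fun u => -quat (q.q u) (M.N u)

/-- The 1-form `η_q(X) = ⟨X, ξ_q⟩`. -/
noncomputable def ηq (q : M.QuatSection) (u X : Rn m) : ℝ := metric s (M.d u X) (M.ξq q u)

/-- `φ_q V`, the tangential part of `J_q V`. -/
noncomputable def φq (q : M.QuatSection) (u : Rn m) (V : Mat m) : Mat m :=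
  quat (q.q u) V - metric s V (M.ξq q u) • M.N u

end Hypersurface

/-! ### Basic facts -/

lemma Space.sign_ne (s : Space) : s.sign ≠ 0 := by cases s <;> simp [Space.sign]

lemma Space.sign_mul (s : Space) : s.sign * s.sign = 1 := by cases s <;> simp [Space.sign]

lemma gram_conj (s : Space) (m : ℕ) : (gram s m)ᴴ = gram s m := by
  rw [gram, diagonal_conjTranspose]
  congr 1
  ext i
  simp only [Pi.star_apply]
  split_ifs <;> simp

lemma gram_mul (s : Space) (m : ℕ) : gram s m * gram s m = 1 := by
  rw [gram, diagonal_mul_diagonal, ← diagonal_one]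
  congr 1
  ext i
  split_ifs
  · simp
  · exact_mod_cast s.sign_mul

/-- The trace functional as a continuous linear map. -/
noncomputable def tau (s : Space) (m : ℕ) : Mat m →L[ℝ] ℝ :=
  LinearMap.toContinuousLinearMap
    (s.sign • (Complex.reLm.comp ((traceLinearMap (Fin (m + 2)) ℝ ℂ))))

lemma tau_apply (s : Space) {m : ℕ} (X : Mat m) : tau s m X = s.sign * (trace X).re := by
  simp [tau]

lemma tau_mul_comm (s : Space) {m : ℕ} (X Y : Mat m) : tau s m (X * Y) = tau s m (Y * X) := by
  rw [tau_apply, tau_apply, trace_mul_comm]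

lemma metric_eq (s : Space) {m : ℕ} (X Y : Mat m) : metric s X Y = tau s m (X * Y) := by
  rw [tau_apply, metric]

lemma metric_comm (s : Space) {m : ℕ} (X Y : Mat m) : metric s X Y = metric s Y X := by
  rw [metric_eq, metric_eq, tau_mul_comm]

namespace Hypersurface

variable {s : Space} {m : ℕ} (M : Hypersurface s m)

lemma nabla_eq (X : Rn m) (Z : Rn m → Mat m) :
    M.nabla X Z = nab (tau s m) M.f M.N X Z := by
  funext u
  rw [nabla, nab, proj, tproj, metric_eq]
  rfl

lemma R_eq (X Y : Rn m) (Z : Rn m → Mat m) :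
    M.R X Y Z = curv (tau s m) M.f M.N X Y Z := by
  funext u
  rw [R, curv, nabla_eq, nabla_eq, nabla_eq, nabla_eq]

lemma d_tan {u : Rn m} (hu : u ∈ M.U) (X : Rn m) :
    IsTan (gram s m) (M.f u) (M.d u X) ∧ metric s (M.d u X) (M.N u) = 0 := by
  have : M.d u X ∈ Set.range (fderiv ℝ M.f u) := ⟨X, rfl⟩
  rw [M.image u hu] at this
  exact this

lemma exists_d {u : Rn m} (hu : u ∈ M.U) {V : Mat m} (hV : IsTan (gram s m) (M.f u) V)
    (hVN : metric s V (M.N u) = 0) : ∃ X, M.d u X = V := by
  have : V ∈ Set.range (fderiv ℝ M.f u) := by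
    rw [M.image u hu]
    exact ⟨hV, hVN⟩
  exact this

/-- The Gauss equation. -/
lemma gauss_eq {u : Rn m} (hu : u ∈ M.U) {Z : Rn m → Mat m} (hZ : ContDiffOn ℝ ∞ Z M.U)
    (hZt : ∀ v ∈ M.U, IsTan (gram s m) (M.f v) (Z v))
    (hZN : ∀ v ∈ M.U, metric s (Z v) (M.N v) = 0) (X Y : Rn m) {W : Mat m}
    (hW : IsTan (gram s m) (M.f u) W) (hWN : metric s W (M.N u) = 0) :
    metric s (M.R X Y Z u) W =
      metric s (W * M.d u X + M.d u X * W) (M.d u Y * Z u + Z u * M.d u Y)
      - metric s (W * M.d u Y + M.d u Y * W) (M.d u X * Z u + Z u * M.d u X)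
      + metric s (Z u) (fderiv ℝ M.N u Y) * metric s (fderiv ℝ M.N u X) W
      - metric s (Z u) (fderiv ℝ M.N u X) * metric s (fderiv ℝ M.N u Y) W := by
  simp only [metric_eq, R_eq]
  exact gauss (tau s m) (tau_mul_comm s) M.isOpen hu M.smooth_f M.smooth_N hZ
    (fun v hv => (M.mem v hv).1) (fun v hv => (hZt v hv).2)
    (fun v hv => by have h := hZN v hv; rw [metric_eq] at h; exact h) X Y hW.2
    (by have h := hWN; rw [metric_eq] at h; exact h)

/-- **Nonexistence.** `m ≥ 3`: if `Z` is a tangent field and `C` a tangent vector at `u`, both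
vanishing (as operators) on `ker P ∩ ker N`, and `Z u ≠ 0`, then there is no map `B` with
`R(X, Y) Z = ⟨Y, C⟩ B X - ⟨X, C⟩ B Y` at `u`. -/
theorem no_field (hm : 3 ≤ m) {u : Rn m} (hu : u ∈ M.U) {Z : Rn m → Mat m}
    (hZ : ContDiffOn ℝ ∞ Z M.U) (hZt : ∀ v ∈ M.U, IsTan (gram s m) (M.f v) (Z v))
    (hZN : ∀ v ∈ M.U, metric s (Z v) (M.N v) = 0) (hZ0 : Z u ≠ 0)
    (hZe : ∀ e, M.f u *ᵥ e = 0 → M.N u *ᵥ e = 0 → Z u *ᵥ e = 0)
    {C : Mat m} (hC : IsTan (gram s m) (M.f u) C)
    (hCe : ∀ e, M.f u *ᵥ e = 0 → M.N u *ᵥ e = 0 → C *ᵥ e = 0) (B : Rn m → Mat m)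
    (h : ∀ X Y, M.R X Y Z u = metric s (M.d u Y) C • B X - metric s (M.d u X) C • B Y) :
    False := by
  obtain ⟨hPP, hPa, ht, hp, hk⟩ := M.mem u hu
  obtain ⟨g, hg⟩ := LinearMap.exists_leftInverse_of_injective
    (fderiv ℝ M.f u : Rn m →ₗ[ℝ] Mat m) (LinearMap.ker_eq_bot.2 (M.immersion u hu))
  have hg' : ∀ X, g (M.d u X) = X := fun X => by
    have := congrArg (fun L => L X) hg
    simpa [d] using this
  have hne := s.sign_ne
  let β : Mat m →ₗ[ℝ] ℝ :=
    { toFun := fun V => metric s (Z u) (fderiv ℝ M.N u (g V))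
      map_add' := by
        intro a b
        simp only [map_add, metric_eq, mul_add]
      map_smul' := by
        intro r a
        simp only [map_smul, metric_eq, mul_smul_comm, RingHom.id_apply] }
  refine key (gram_conj s m) (gram_mul s m) hPP hPa ht (by simp; omega) (M.tangent_N u hu)
    (hZt u hu) hC hZ0 (ε := s.sign) (M.unit_N u hu) ?_ ?_ hZe hCe β ?_
  · intro x hx hx0 h0
    have := hk x hx0 hx
    rw [h0, mul_zero] at this
    exact lt_irrefl _ this
  · intro x hx hx0 h0
    have := hp x hx0 hx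
    rw [h0] at this
    exact lt_irrefl _ this
  · intro V V' hV hV' hVN hVN' hVC hVC' hβ hβ' W hW hWN
    obtain ⟨X, rfl⟩ := M.exists_d hu hV hVN
    obtain ⟨Y, rfl⟩ := M.exists_d hu hV' hVN'
    have h1 := M.gauss_eq hu hZ hZt hZN X Y hW hWN
    have h2 : M.R X Y Z u = 0 := by
      rw [h X Y]
      have e1 : metric s (M.d u X) C = 0 := hVC
      have e2 : metric s (M.d u Y) C = 0 := hVC'
      rw [e1, e2, zero_smul, zero_smul, sub_zero]
    have e1 : metric s (Z u) (fderiv ℝ M.N u X) = 0 := by
      have : metric s (Z u) (fderiv ℝ M.N u (g (M.d u X))) = 0 := hβ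
      rwa [hg'] at this
    have e2 : metric s (Z u) (fderiv ℝ M.N u Y) = 0 := by
      have : metric s (Z u) (fderiv ℝ M.N u (g (M.d u Y))) = 0 := hβ'
      rwa [hg'] at this
    rw [h2, e1, e2] at h1
    simp only [metric, zero_mul, trace_zero, Complex.zero_re, mul_zero, add_zero, sub_zero] at h1
    have h3 : s.sign * (((W * M.d u X + M.d u X * W) * (M.d u Y * Z u + Z u * M.d u Y)).trace).re
      = s.sign * (((W * M.d u Y + M.d u Y * W) * (M.d u X * Z u + Z u * M.d u X)).trace).re := by
      linarith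
    exact mul_left_cancel₀ hne h3

/-! ### The structure fields -/

lemma cplx_tan {P X : Mat m} (hPP : P * P = P) (hPa : adj (gram s m) P = P)
    (hX : IsTan (gram s m) P X) : IsTan (gram s m) P (cplx P X) := by
  constructor
  · rw [cplx, adj_smul, adj_sub, adj_mul (gram_mul s m), adj_mul (gram_mul s m), hX.1, hPa,
      Complex.conj_I, neg_smul, ← smul_neg, neg_sub]
  · have h1 : P * X * P = 0 := by
      have : P * (P * X + X * P) * P = P * X * P := by rw [hX.2]
      rw [mul_add, add_mul, ← mul_assoc P P X, hPP, ← mul_assoc P X P,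
        mul_assoc (P * X) P P, hPP] at this
      simpa using this
    have h2 : P * (P * X) = P * X := by rw [← mul_assoc, hPP]
    have h3 : X * P * P = X * P := by rw [mul_assoc, hPP]
    rw [cplx, mul_smul_comm, smul_mul_assoc, ← smul_add, mul_sub, sub_mul, h2, h3, ← mul_assoc, h1]
    congr 1
    abel

lemma quat_tan {P X q : Mat m} (hq : IsUnitQuat s P q)
    (hX : IsTan (gram s m) P X) : IsTan (gram s m) P (quat q X) := by
  obtain ⟨q1, q2, q3, -, -⟩ := hq
  have h1 : q * X * P = q * X - q * X := by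
    have e1 : q * (P * X + X * P) = q * X := by rw [hX.2]
    rw [mul_add, ← mul_assoc, q2, ← mul_assoc] at e1
    rw [sub_self]
    simpa using e1
  have h2 : P * (X * q) = 0 := by
    have e1 : (P * X + X * P) * q = X * q := by rw [hX.2]
    rw [add_mul, mul_assoc X P q, q1, mul_assoc] at e1
    simpa using e1
  constructor
  · rw [quat, adj_sub, adj_mul (gram_mul s m), adj_mul (gram_mul s m), hX.1, q3]
    noncomm_ring
  · rw [quat, mul_sub, sub_mul, h1, h2, mul_assoc X q P, q2, ← mul_assoc, q1]
    noncomm_ring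

lemma cplx_cplx {P X : Mat m} (hPP : P * P = P) (hX : IsTan (gram s m) P X) :
    cplx P (cplx P X) = -X := by
  have h1 : P * X * P = 0 := by
    have : P * (P * X + X * P) * P = P * X * P := by rw [hX.2]
    rw [mul_add, add_mul, ← mul_assoc P P X, hPP, ← mul_assoc P X P,
      mul_assoc (P * X) P P, hPP] at this
    simpa using this
  have h2 : P * (P * X) = P * X := by rw [← mul_assoc, hPP]
  have h3 : X * P * P = X * P := by rw [mul_assoc, hPP]
  have h4 : P * (X * P) = 0 := by rw [← mul_assoc, h1]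
  rw [cplx, cplx, mul_smul_comm, smul_mul_assoc, ← smul_sub, smul_smul, Complex.I_mul_I,
    mul_sub, sub_mul, h1, h2, h3, h4, sub_zero, zero_sub, sub_neg_eq_add, hX.2, neg_one_smul]

lemma quat_quat {P X q : Mat m} (hq : IsUnitQuat s P q) (hX : IsTan (gram s m) P X) :
    quat q (quat q X) = -X := by
  obtain ⟨q1, q2, q3, -, q5⟩ := hq
  have h1 : q * X * q = 0 := by
    have : q * (P * X + X * P) * q = q * X * q := by rw [hX.2]
    rw [mul_add, add_mul, ← mul_assoc q P X, q2, ← mul_assoc q X P,
      mul_assoc (q * X) P q, q1] at this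
    simpa using this
  have h2 : X * q * q = -(X * P) := by rw [mul_assoc, q5, mul_neg]
  have h3 : q * (q * X) = -(P * X) := by rw [← mul_assoc, q5, neg_mul]
  have h4 : q * (X * q) = 0 := by rw [← mul_assoc, h1]
  rw [quat, quat, sub_mul, mul_sub, h1, h2, h3, h4]
  nth_rewrite 3 [← hX.2]
  abel

section fields

variable {s : Space} {m : ℕ} (M : Hypersurface s m)

lemma N_ne {u : Rn m} (hu : u ∈ M.U) : M.N u ≠ 0 := by
  intro h
  have := M.unit_N u hu
  rw [h, metric, mul_zero, trace_zero, Complex.zero_re, mul_zero] at this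
  exact zero_ne_one this

lemma ξ_smooth : ContDiffOn ℝ ∞ M.ξ M.U := by
  have h : M.ξ = fun u => -(Complex.I • (M.f u * M.N u - M.N u * M.f u)) := rfl
  rw [h]
  exact (((M.smooth_f.mul M.smooth_N).sub (M.smooth_N.mul M.smooth_f)).const_smul Complex.I).neg

lemma ξ_tan : ∀ v ∈ M.U, IsTan (gram s m) (M.f v) (M.ξ v) := fun v hv =>
  (cplx_tan (M.mem v hv).1 (M.mem v hv).2.1 (M.tangent_N v hv)).neg

lemma ξ_orth : ∀ v ∈ M.U, metric s (M.ξ v) (M.N v) = 0 := by
  intro v _
  have h : trace (M.ξ v * M.N v) = 0 := by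
    rw [ξ, cplx, neg_mul, smul_mul_assoc, trace_neg, trace_smul, sub_mul, trace_sub,
      mul_assoc (M.N v), trace_mul_comm (M.N v) (M.f v * M.N v), sub_self, smul_zero, neg_zero]
  rw [metric, h, Complex.zero_re, mul_zero]

lemma ξ_ne {u : Rn m} (hu : u ∈ M.U) : M.ξ u ≠ 0 := by
  intro h
  have h1 := cplx_cplx (M.mem u hu).1 (M.tangent_N u hu)
  have h2 : cplx (M.f u) (M.N u) = 0 := by
    have : -cplx (M.f u) (M.N u) = 0 := h
    rwa [neg_eq_zero] at this
  rw [h2, cplx, mul_zero, zero_mul, sub_zero, smul_zero] at h1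
  exact M.N_ne hu (neg_eq_zero.1 h1.symm)

lemma ξ_ker (u : Rn m) (e : Fin (m + 2) → ℂ) (h1 : M.f u *ᵥ e = 0) (h2 : M.N u *ᵥ e = 0) :
    M.ξ u *ᵥ e = 0 := by
  rw [ξ, cplx, neg_mulVec, smul_mulVec, sub_mulVec, ← mulVec_mulVec, ← mulVec_mulVec, h1, h2]
  simp

lemma ξq_smooth (q : M.QuatSection) : ContDiffOn ℝ ∞ (M.ξq q) M.U := by
  have h : M.ξq q = fun u => -(M.N u * q.q u - q.q u * M.N u) := rfl
  rw [h]
  exact ((M.smooth_N.mul q.smooth_q).sub (q.smooth_q.mul M.smooth_N)).neg

lemma ξq_tan (q : M.QuatSection) : ∀ v ∈ M.U, IsTan (gram s m) (M.f v) (M.ξq q v) :=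
  fun v hv => (quat_tan (q.unit_q v hv) (M.tangent_N v hv)).neg

lemma ξq_orth (q : M.QuatSection) : ∀ v ∈ M.U, metric s (M.ξq q v) (M.N v) = 0 := by
  intro v _
  have h : trace (M.ξq q v * M.N v) = 0 := by
    rw [ξq, quat, neg_mul, trace_neg, sub_mul, trace_sub, mul_assoc (M.N v),
      trace_mul_comm (M.N v) (q.q v * M.N v), sub_self, neg_zero]
  rw [metric, h, Complex.zero_re, mul_zero]

lemma ξq_ne (q : M.QuatSection) {u : Rn m} (hu : u ∈ M.U) : M.ξq q u ≠ 0 := by
  intro h
  have h1 := quat_quat (q.unit_q u hu) (M.tangent_N u hu)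
  have h2 : quat (q.q u) (M.N u) = 0 := by
    have : -quat (q.q u) (M.N u) = 0 := h
    rwa [neg_eq_zero] at this
  rw [h2, quat, mul_zero, zero_mul, sub_zero] at h1
  exact M.N_ne hu (neg_eq_zero.1 h1.symm)

lemma ξq_ker (q : M.QuatSection) {u : Rn m} (hu : u ∈ M.U) (e : Fin (m + 2) → ℂ)
    (h1 : M.f u *ᵥ e = 0) (h2 : M.N u *ᵥ e = 0) : M.ξq q u *ᵥ e = 0 := by
  have h3 : q.q u *ᵥ e = 0 := by
    rw [← (q.unit_q u hu).2.1, ← mulVec_mulVec, h1, mulVec_zero]
  rw [ξq, quat, neg_mulVec, sub_mulVec, ← mulVec_mulVec, ← mulVec_mulVec, h2, h3]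
  simp

end fields

end Hypersurface

end Pool.Agent.Q206.Hyp
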