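import Mathlib

/-! # Hermitian forms, adjoints and rank-one operators -/

open scoped Matrix ComplexConjugate
open Matrix

set_option linter.unusedSectionVars false

namespace Pool.Agent.Q206.Hyp

variable {ι : Type*} [Fintype ι] [DecidableEq ι]

/-- The sesquilinear form `x* G y`. -/
def form (G : Matrix ι ι ℂ) (x y : ι → ℂ) : ℂ := star x ⬝ᵥ (G *ᵥ y)

/-- The adjoint `G Xᴴ G` of `X` (for `G` Hermitian with `G² = 1`). -/
def adj (G X : Matrix ι ι ℂ) : Matrix ι ι ℂ := G * Xᴴ * G

/-- The operator `z ↦ ⟨y, z⟩ x`. -/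
def ket (G : Matrix ι ι ℂ) (x y : ι → ℂ) : Matrix ι ι ℂ := vecMulVec x (star y ᵥ* G)

section form

variable (G : Matrix ι ι ℂ)

lemma form_add_left (x y z : ι → ℂ) : form G (x + y) z = form G x z + form G y z := by
  simp [form, star_add, add_dotProduct]

lemma form_add_right (x y z : ι → ℂ) : form G x (y + z) = form G x y + form G x z := by
  simp [form, mulVec_add, dotProduct_add]

lemma form_sub_left (x y z : ι → ℂ) : form G (x - y) z = form G x z - form G y z := by
  simp [form, star_sub, sub_dotProduct]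

lemma form_sub_right (x y z : ι → ℂ) : form G x (y - z) = form G x y - form G x z := by
  simp [form, mulVec_sub, dotProduct_sub]

lemma form_smul_left (c : ℂ) (x y : ι → ℂ) : form G (c • x) y = conj c * form G x y := by
  simp [form, star_smul, smul_dotProduct]

lemma form_smul_right (c : ℂ) (x y : ι → ℂ) : form G x (c • y) = c * form G x y := by
  simp [form, mulVec_smul, dotProduct_smul]

@[simp] lemma form_zero_left (y : ι → ℂ) : form G 0 y = 0 := by simp [form]

@[simp] lemma form_zero_right (x : ι → ℂ) : form G x 0 = 0 := by simp [form]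

lemma form_neg_right (x y : ι → ℂ) : form G x (-y) = -form G x y := by
  simp [form, mulVec_neg]

variable {G}

lemma form_conj (hG : Gᴴ = G) (x y : ι → ℂ) : form G y x = conj (form G x y) := by
  have h1 : star (G *ᵥ y) = star y ᵥ* G := by rw [star_mulVec, hG]
  rw [form, form, dotProduct_mulVec, ← h1]
  rw [starRingEnd_apply, star_dotProduct]

lemma form_mulVec_left (hGG : G * G = 1) (X : Matrix ι ι ℂ) (x y : ι → ℂ) :
    form G (X *ᵥ x) y = form G x (adj G X *ᵥ y) := by
  rw [form, form, star_mulVec, ← dotProduct_mulVec, mulVec_mulVec, mulVec_mulVec, adj,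
    ← mul_assoc, ← mul_assoc, hGG, one_mul]

lemma adj_add (G X Y : Matrix ι ι ℂ) : adj G (X + Y) = adj G X + adj G Y := by
  simp [adj, mul_add, add_mul]

lemma adj_sub (G X Y : Matrix ι ι ℂ) : adj G (X - Y) = adj G X - adj G Y := by
  simp [adj, mul_sub, sub_mul]

lemma adj_smul (G : Matrix ι ι ℂ) (c : ℂ) (X : Matrix ι ι ℂ) :
    adj G (c • X) = conj c • adj G X := by
  simp [adj]

lemma adj_real_smul (G : Matrix ι ι ℂ) (c : ℝ) (X : Matrix ι ι ℂ) :
    adj G (c • X) = c • adj G X := by
  simp [adj]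

lemma adj_mul (hGG : G * G = 1) (X Y : Matrix ι ι ℂ) : adj G (X * Y) = adj G Y * adj G X := by
  rw [adj, adj, adj, conjTranspose_mul]
  calc G * (Yᴴ * Xᴴ) * G = G * Yᴴ * (1 * (Xᴴ * G)) := by noncomm_ring
    _ = G * Yᴴ * ((G * G) * (Xᴴ * G)) := by rw [hGG]
    _ = _ := by noncomm_ring

lemma adj_adj (hG : Gᴴ = G) (hGG : G * G = 1) (X : Matrix ι ι ℂ) : adj G (adj G X) = X := by
  rw [adj, adj, conjTranspose_mul, conjTranspose_mul, conjTranspose_conjTranspose, hG]
  calc G * (G * (X * G)) * G = (G * G) * X * (G * G) := by noncomm_ring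
    _ = X := by rw [hGG]; simp

lemma adj_neg (G X : Matrix ι ι ℂ) : adj G (-X) = -adj G X := by
  simp [adj]

lemma adj_one (hGG : G * G = 1) : adj G 1 = 1 := by
  simp [adj, hGG]

variable (G)

lemma ket_mulVec (x y z : ι → ℂ) : ket G x y *ᵥ z = form G y z • x := by
  ext i
  rw [ket, form, dotProduct_mulVec, mulVec, dotProduct]
  simp only [vecMulVec_apply, Pi.smul_apply, smul_eq_mul, dotProduct, mul_assoc, ← Finset.mul_sum]
  ring

lemma mul_ket (M : Matrix ι ι ℂ) (x y : ι → ℂ) : M * ket G x y = ket G (M *ᵥ x) y := by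
  rw [ket, ket, mul_vecMulVec]

variable {G}

lemma ket_mul (hG : Gᴴ = G) (hGG : G * G = 1) (M : Matrix ι ι ℂ) (x y : ι → ℂ) :
    ket G x y * M = ket G x (adj G M *ᵥ y) := by
  rw [ket, ket, vecMulVec_mul, star_mulVec, vecMul_vecMul, vecMul_vecMul, adj,
    conjTranspose_mul, conjTranspose_mul, conjTranspose_conjTranspose, hG]
  congr 2
  rw [mul_assoc, mul_assoc, hGG, mul_one]

lemma trace_ket (x y : ι → ℂ) : trace (ket G x y) = form G y x := by
  rw [ket, trace_vecMulVec, form, dotProduct_mulVec, dotProduct_comm]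

lemma adj_ket (hG : Gᴴ = G) (hGG : G * G = 1) (x y : ι → ℂ) : adj G (ket G x y) = ket G y x := by
  rw [ket, ket, adj, conjTranspose_vecMulVec, star_vecMul, star_star, hG, mul_vecMulVec,
    vecMulVec_mul, mulVec_mulVec, hGG, one_mulVec]

lemma ket_mul_ket (x y z w : ι → ℂ) : ket G x y * ket G z w = form G y z • ket G x w := by
  rw [mul_ket, ket_mulVec, ket, ket]
  ext i j
  simp [vecMulVec_apply]
  ring

lemma ket_add_left (x x' y : ι → ℂ) : ket G (x + x') y = ket G x y + ket G x' y := by
  ext i j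
  simp [ket, vecMulVec_apply, add_mul]

lemma ket_add_right (x y y' : ι → ℂ) : ket G x (y + y') = ket G x y + ket G x y' := by
  ext i j
  simp [ket, vecMulVec_apply, mul_add, add_vecMul, star_add]

lemma ket_smul_left (c : ℂ) (x y : ι → ℂ) : ket G (c • x) y = c • ket G x y := by
  ext i j
  simp [ket, vecMulVec_apply]
  ring

lemma ket_smul_right (c : ℂ) (x y : ι → ℂ) : ket G x (c • y) = conj c • ket G x y := by
  ext i j
  simp [ket, vecMulVec_apply, smul_vecMul, star_smul]
  ring

lemma ket_zero_left (y : ι → ℂ) : ket G 0 y = 0 := by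
  ext i j
  simp [ket, vecMulVec_apply]

lemma ket_zero_right (x : ι → ℂ) : ket G x 0 = 0 := by
  ext i j
  simp [ket, vecMulVec_apply]

end form

end Pool.Agent.Q206.Hyp
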