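import Mathlib

/-!
# The Gauss equation for hypersurfaces of spaces of projections

Everything takes place in a real normed algebra `𝒜` with a continuous trace `τ`. A point of the
ambient space is an idempotent `P`, a tangent vector at `P` is an element `V` with
`P V + V P = V`, and the metric is `τ (V W)`.
-/

open scoped ContDiff Topology

namespace Pool.Agent.Q206.Hyp

section Gauss

variable {E 𝒜 : Type*} [NormedAddCommGroup E] [NormedSpace ℝ E] [NormedRing 𝒜]
  [NormedAlgebra ℝ 𝒜]

/-- The projection of `V` to the tangent vectors at the idempotent `P` which are orthogonal to the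
unit tangent vector `N`. -/
noncomputable def tproj (τ : 𝒜 → ℝ) (P N V : 𝒜) : 𝒜 :=
  P * V * (1 - P) + (1 - P) * V * P - τ (V * N) • N

/-- The covariant derivative (tangential part of the derivative) of the field `Z` along `f`, in the
direction of the vector `X` of the parameter space. -/
noncomputable def nab (τ : 𝒜 → ℝ) (f N : E → 𝒜) (X : E) (Z : E → 𝒜) : E → 𝒜 :=
  fun u => tproj τ (f u) (N u) (fderiv ℝ Z u X)

/-- The curvature `∇_X ∇_Y Z - ∇_Y ∇_X Z` (`X`, `Y` constant fields of the parameter space). -/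
noncomputable def curv (τ : 𝒜 → ℝ) (f N : E → 𝒜) (X Y : E) (Z : E → 𝒜) : E → 𝒜 :=
  fun u => nab τ f N X (nab τ f N Y Z) u - nab τ f N Y (nab τ f N X Z) u

lemma hasDerivAt_line {F : Type*} [NormedAddCommGroup F] [NormedSpace ℝ F] {g : E → F} {u : E}
    (hg : DifferentiableAt ℝ g u) (X : E) :
    HasDerivAt (fun t : ℝ => g (u + t • X)) (fderiv ℝ g u X) 0 := by
  have h1 : HasDerivAt (fun t : ℝ => u + t • X) X 0 := by
    simpa using ((hasDerivAt_id (0 : ℝ)).smul_const X).const_add u
  have h2 : HasFDerivAt g (fderiv ℝ g u) (u + (0 : ℝ) • X) := by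
    simpa using hg.hasFDerivAt
  exact h2.comp_hasDerivAt (0 : ℝ) h1

lemma fderiv_fderiv_apply {F : Type*} [NormedAddCommGroup F] [NormedSpace ℝ F] {g : E → F} {u : E}
    (hg : DifferentiableAt ℝ (fderiv ℝ g) u) (A B : E) :
    fderiv ℝ (fun v => fderiv ℝ g v A) u B = fderiv ℝ (fderiv ℝ g) u B A := by
  rw [fderiv_clm_apply hg (differentiableAt_const _)]
  simp

lemma differentiableAt_nab (τ : 𝒜 →L[ℝ] ℝ) {f N Z : E → 𝒜} {u : E}
    (hf : DifferentiableAt ℝ f u) (hN : DifferentiableAt ℝ N u)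
    (hZ : DifferentiableAt ℝ (fderiv ℝ Z) u) (Y : E) :
    DifferentiableAt ℝ (nab τ f N Y Z) u := by
  have hV : DifferentiableAt ℝ (fun v => fderiv ℝ Z v Y) u :=
    hZ.clm_apply (differentiableAt_const _)
  have h1 : DifferentiableAt ℝ (fun v => τ (fderiv ℝ Z v Y * N v)) u :=
    τ.differentiableAt.comp u (hV.mul hN)
  exact (((hf.mul hV).mul (hf.const_sub 1)).add
    (((hf.const_sub 1).mul hV).mul hf)).sub (h1.smul hN)

lemma fderiv_nab (τ : 𝒜 →L[ℝ] ℝ) {f N Z : E → 𝒜} {u : E}
    (hf : DifferentiableAt ℝ f u) (hN : DifferentiableAt ℝ N u)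
    (hZ : DifferentiableAt ℝ (fderiv ℝ Z) u) (X Y : E) :
    fderiv ℝ (nab τ f N Y Z) u X =
      (fderiv ℝ f u X * fderiv ℝ Z u Y + f u * fderiv ℝ (fderiv ℝ Z) u X Y) * (1 - f u)
        + f u * fderiv ℝ Z u Y * (-fderiv ℝ f u X)
      + ((-fderiv ℝ f u X * fderiv ℝ Z u Y + (1 - f u) * fderiv ℝ (fderiv ℝ Z) u X Y) * f u
        + (1 - f u) * fderiv ℝ Z u Y * fderiv ℝ f u X)
      - (τ (fderiv ℝ Z u Y * N u) • fderiv ℝ N u X
        + τ (fderiv ℝ (fderiv ℝ Z) u X Y * N u + fderiv ℝ Z u Y * fderiv ℝ N u X) • N u) := by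
  have hP := hasDerivAt_line hf X
  have hN' := hasDerivAt_line hN X
  have hV0 : DifferentiableAt ℝ (fun v => fderiv ℝ Z v Y) u :=
    hZ.clm_apply (differentiableAt_const _)
  have hV := hasDerivAt_line hV0 X
  have hV1 : fderiv ℝ (fun v => fderiv ℝ Z v Y) u X = fderiv ℝ (fderiv ℝ Z) u X Y := by
    rw [fderiv_clm_apply hZ (differentiableAt_const _)]
    simp
  rw [hV1] at hV
  have h1 := ((hP.mul hV).mul (hP.const_sub 1)).add (((hP.const_sub 1).mul hV).mul hP)
  have h2 := ((τ.hasFDerivAt.comp_hasDerivAt (0 : ℝ) (hV.mul hN')).smul hN')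
  have h3 := h1.sub h2
  have h4 := hasDerivAt_line (differentiableAt_nab τ hf hN hZ Y) X
  have h5 := h4.unique h3
  rw [h5]
  simp

/-- The Gauss equation. -/
theorem gauss (τ : 𝒜 →L[ℝ] ℝ) (hτ : ∀ a b, τ (a * b) = τ (b * a)) {f N Z : E → 𝒜} {U : Set E}
    (hU : IsOpen U) {u : E} (hu : u ∈ U)
    (hf : ContDiffOn ℝ ∞ f U) (hN : ContDiffOn ℝ ∞ N U) (hZ : ContDiffOn ℝ ∞ Z U)
    (hidem : ∀ v ∈ U, f v * f v = f v)
    (hZt : ∀ v ∈ U, f v * Z v + Z v * f v = Z v)
    (hZN : ∀ v ∈ U, τ (Z v * N v) = 0) (X Y : E) {W : 𝒜}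
    (hW : f u * W + W * f u = W) (hWN : τ (W * N u) = 0) :
    τ (curv τ f N X Y Z u * W) =
      τ ((W * fderiv ℝ f u X + fderiv ℝ f u X * W) *
          (fderiv ℝ f u Y * Z u + Z u * fderiv ℝ f u Y))
      - τ ((W * fderiv ℝ f u Y + fderiv ℝ f u Y * W) *
          (fderiv ℝ f u X * Z u + Z u * fderiv ℝ f u X))
      + τ (Z u * fderiv ℝ N u Y) * τ (fderiv ℝ N u X * W)
      - τ (Z u * fderiv ℝ N u X) * τ (fderiv ℝ N u Y * W) := by
  have hUn : U ∈ 𝓝 u := hU.mem_nhds hu
  have cf : ContDiffAt ℝ ∞ f u := hf.contDiffAt hUn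
  have cN : ContDiffAt ℝ ∞ N u := hN.contDiffAt hUn
  have cZ : ContDiffAt ℝ ∞ Z u := hZ.contDiffAt hUn
  have df : DifferentiableAt ℝ f u := cf.differentiableAt (by simp)
  have dN : DifferentiableAt ℝ N u := cN.differentiableAt (by simp)
  have dZ : DifferentiableAt ℝ Z u := cZ.differentiableAt (by simp)
  have dZ2 : DifferentiableAt ℝ (fderiv ℝ Z) u :=
    (cZ.fderiv_right (m := 1) (by norm_num; exact ENat.LEInfty.out)).differentiableAt (by simp)
  have symm : fderiv ℝ (fderiv ℝ Z) u X Y = fderiv ℝ (fderiv ℝ Z) u Y X :=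
    (cZ.isSymmSndFDerivAt (by simp; exact ENat.LEInfty.out)).eq X Y
  -- tangency of the derivative of `f`
  have tanf : ∀ X : E, f u * fderiv ℝ f u X + fderiv ℝ f u X * f u = fderiv ℝ f u X := by
    intro X
    have h1 := hasDerivAt_line df X
    have h2 := h1.mul h1
    have h3 : (fun t : ℝ => f (u + t • X) * f (u + t • X)) =ᶠ[𝓝 0] fun t => f (u + t • X) := by
      have hc : Filter.Tendsto (fun t : ℝ => u + t • X) (𝓝 0) (𝓝 u) := by
        have : Continuous (fun t : ℝ => u + t • X) := by fun_prop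
        simpa using this.tendsto 0
      filter_upwards [hc hUn] with t ht using hidem _ ht
    have h4 := (h1.congr_of_eventuallyEq h3).unique h2
    simp only [zero_smul, add_zero] at h4
    rw [add_comm]; exact h4.symm
  -- derivative of `f Z + Z f = Z`
  have hS : ∀ Y : E, fderiv ℝ Z u Y - f u * fderiv ℝ Z u Y - fderiv ℝ Z u Y * f u =
      fderiv ℝ f u Y * Z u + Z u * fderiv ℝ f u Y := by
    intro Y
    have h1 := hasDerivAt_line df Y
    have hz := hasDerivAt_line dZ Y
    have h2 := (h1.mul hz).add (hz.mul h1)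
    have h3 : (fun t : ℝ => f (u + t • Y) * Z (u + t • Y) + Z (u + t • Y) * f (u + t • Y))
        =ᶠ[𝓝 0] fun t => Z (u + t • Y) := by
      have hc : Filter.Tendsto (fun t : ℝ => u + t • Y) (𝓝 0) (𝓝 u) := by
        have : Continuous (fun t : ℝ => u + t • Y) := by fun_prop
        simpa using this.tendsto 0
      filter_upwards [hc hUn] with t ht using hZt _ ht
    have h4 := (hz.congr_of_eventuallyEq h3).unique h2
    simp only [zero_smul, add_zero] at h4
    rw [sub_sub, sub_eq_iff_eq_add]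
    refine h4.trans ?_
    abel
  -- derivative of `τ (Z N) = 0`
  have hα : ∀ Y : E, τ (fderiv ℝ Z u Y * N u) = -τ (Z u * fderiv ℝ N u Y) := by
    intro Y
    have h1 := hasDerivAt_line dN Y
    have hz := hasDerivAt_line dZ Y
    have h2 := τ.hasFDerivAt.comp_hasDerivAt (0 : ℝ) (hz.mul h1)
    have h3 : (fun t : ℝ => τ (Z (u + t • Y) * N (u + t • Y))) =ᶠ[𝓝 0] fun _ => (0 : ℝ) := by
      have hc : Filter.Tendsto (fun t : ℝ => u + t • Y) (𝓝 0) (𝓝 u) := by
        have : Continuous (fun t : ℝ => u + t • Y) := by fun_prop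
        simpa using this.tendsto 0
      filter_upwards [hc hUn] with t ht using hZN _ ht
    have h4 := ((hasDerivAt_const (0 : ℝ) (0 : ℝ)).congr_of_eventuallyEq h3).unique h2
    simp only [zero_smul, add_zero, map_add] at h4
    linarith
  -- commutation
  have comm : ∀ A B : 𝒜, f u * A + A * f u = A → f u * B + B * f u = B →
      f u * (A * B) = A * B * f u := by
    intro A B hA hB
    have h1 : f u * A = A - A * f u := by rw [eq_sub_iff_add_eq]; exact hA
    have h2 : f u * B = B - B * f u := by rw [eq_sub_iff_add_eq]; exact hB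
    rw [← mul_assoc, h1, sub_mul, mul_assoc A (f u) B, h2, mul_sub, ← mul_assoc]
    abel
  -- the projection does not matter when tested with `W`
  have hid := hidem u hu
  have proj : ∀ V : 𝒜, τ (tproj τ (f u) (N u) V * W) = τ (V * W) := by
    intro V
    have hPWP : f u * W * f u = 0 := by
      have : f u * (f u * W + W * f u) * f u = f u * W * f u := by rw [hW]
      rw [mul_add, add_mul, ← mul_assoc (f u) (f u) W, hid, ← mul_assoc (f u) W (f u),
        mul_assoc (f u * W) (f u) (f u), hid] at this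
      simpa using this
    have e1 : τ (f u * V * (1 - f u) * W) = τ (V * ((1 - f u) * W * f u)) := by
      rw [mul_assoc (f u * V), mul_assoc (f u) V, hτ (f u), mul_assoc V]
    have e2 : τ ((1 - f u) * V * f u * W) = τ (V * (f u * W * (1 - f u))) := by
      rw [mul_assoc ((1 - f u) * V), mul_assoc (1 - f u) V, hτ (1 - f u), mul_assoc V]
    have e3 : τ (N u * W) = 0 := by rw [hτ]; exact hWN
    rw [tproj, sub_mul, add_mul, smul_mul_assoc, map_sub, map_add, map_smul, e1, e2, e3,
      smul_zero, sub_zero, ← map_add, ← mul_add]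
    congr 2
    have e4 : (1 - f u) * W * f u + f u * W * (1 - f u) =
        (f u * W + W * f u) - (f u * W * f u + f u * W * f u) := by
      noncomm_ring
    rw [e4, hW, hPWP]
    simp
  -- main term
  have main : ∀ X Y : E, τ (fderiv ℝ (nab τ f N Y Z) u X * W) =
      τ ((W * fderiv ℝ f u X + fderiv ℝ f u X * W) *
          (fderiv ℝ f u Y * Z u + Z u * fderiv ℝ f u Y))
      + τ (fderiv ℝ (fderiv ℝ Z) u X Y * W)
      + τ (Z u * fderiv ℝ N u Y) * τ (fderiv ℝ N u X * W) := by
    intro X Y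
    rw [fderiv_nab τ df dN dZ2 X Y, ← hS Y]
    have hK1 := comm W (fderiv ℝ f u X) hW (tanf X)
    have hK2 := comm (fderiv ℝ f u X) W (tanf X) hW
    set V := fderiv ℝ Z u Y
    set V2 := fderiv ℝ (fderiv ℝ Z) u X Y
    set P := f u
    set X' := fderiv ℝ f u X
    have e3 : τ (N u * W) = 0 := by rw [hτ]; exact hWN
    have proj2 := proj V2
    rw [tproj, sub_mul, smul_mul_assoc, map_sub, map_smul, e3, smul_zero, sub_zero] at proj2
    have split : ((X' * V + P * V2) * (1 - P) + P * V * (-X')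
        + ((-X' * V + (1 - P) * V2) * P + (1 - P) * V * X')
        - (τ (V * N u) • fderiv ℝ N u X + τ (V2 * N u + V * fderiv ℝ N u X) • N u)) * W =
        (X' * V * (1 - P) * W - P * V * X' * W - X' * V * P * W + (1 - P) * V * X' * W)
        + (P * V2 * (1 - P) + (1 - P) * V2 * P) * W
        - (τ (V * N u) • (fderiv ℝ N u X * W) + τ (V2 * N u + V * fderiv ℝ N u X) • (N u * W)) := by
      rw [sub_mul, add_mul (τ (V * N u) • fderiv ℝ N u X), smul_mul_assoc, smul_mul_assoc]
      congr 1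
      noncomm_ring
    rw [split, map_sub, map_add, proj2, map_add τ (τ (V * N u) • _), map_smul, map_smul, e3,
      smul_zero, add_zero, smul_eq_mul, hα Y]
    have t1 : τ (X' * V * (1 - P) * W) = τ (V * ((1 - P) * (W * X'))) := by
      rw [mul_assoc (X' * V), mul_assoc X' V, hτ X']
      congr 1
      noncomm_ring
    have t2 : τ (P * V * X' * W) = τ (V * (X' * W * P)) := by
      rw [mul_assoc (P * V), mul_assoc P V, hτ P]
      congr 1
      noncomm_ring
    have t3 : τ (X' * V * P * W) = τ (V * (P * (W * X'))) := by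
      rw [mul_assoc (X' * V), mul_assoc X' V, hτ X']
      congr 1
      noncomm_ring
    have t4 : τ ((1 - P) * V * X' * W) = τ (V * (X' * W * (1 - P))) := by
      rw [mul_assoc ((1 - P) * V), mul_assoc (1 - P) V, hτ (1 - P)]
      congr 1
      noncomm_ring
    have t5 : τ ((W * X' + X' * W) * (V - P * V - V * P)) =
        τ (V * (W * X' + X' * W)) - τ (V * ((W * X' + X' * W) * P))
          - τ (V * (P * (W * X' + X' * W))) := by
      rw [hτ (W * X' + X' * W), sub_mul, sub_mul, map_sub, map_sub]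
      congr 1
      · congr 1
        rw [mul_assoc P V, hτ P]
        congr 1
        noncomm_ring
      · congr 1
        noncomm_ring
    have t6 : (W * X' + X' * W) * P = P * (W * X' + X' * W) := by
      rw [mul_add, add_mul, hK1, hK2]
    rw [t5, t6, map_add, map_sub, map_sub, t1, t2, t3, t4]
    have t7 : V * ((1 - P) * (W * X')) = V * (W * X') - V * (P * (W * X')) := by noncomm_ring
    have t8 : V * (X' * W * (1 - P)) = V * (X' * W) - V * (P * (X' * W)) := by
      rw [mul_sub, mul_sub, mul_one, ← hK2]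
    rw [t7, t8, ← hK2, map_sub, map_sub, mul_add, mul_add, mul_add, map_add, map_add]
    ring
  have hR : curv τ f N X Y Z u = tproj τ (f u) (N u) (fderiv ℝ (nab τ f N Y Z) u X)
      - tproj τ (f u) (N u) (fderiv ℝ (nab τ f N X Z) u Y) := rfl
  rw [hR, sub_mul, map_sub, proj, proj, main, main, symm]
  ring

end Gauss

end Pool.Agent.Q206.Hyp
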