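import Pool.Agent.Q206.Hyp.Sanity

/-!
# The horosphere of `ℂH² = SU(2,1)/S(U(2)×U(1))`

In homogeneous coordinates the horosphere is `|⟨n, z⟩|² = -⟨z, z⟩` with `n = (0, 1, 1)` null.
-/

open scoped Matrix ComplexConjugate ContDiff Matrix.Norms.Operator Topology
open Matrix

namespace Pool.Agent.Q206.Hyp.Horo

abbrev V3 : Type := Fin (1 + 2) → ℂ

abbrev G3 : Mat 1 := gram .noncompact 1

lemma form3 (a b : V3) :
    form G3 a b = conj (a 0) * b 0 + conj (a 1) * b 1 - conj (a 2) * b 2 := by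
  simp [form, G3, gram, dotProduct, mulVec_diagonal, Fin.sum_univ_succ, Space.sign]
  ring

/-- the coordinates of `ℝ³` as complex numbers -/
noncomputable def cc (i : Fin (4 * 1 - 1)) : Rn 1 →L[ℝ] ℂ :=
  Complex.ofRealCLM ∘L (EuclideanSpace.proj i : Rn 1 →L[ℝ] ℝ)

lemma cc_apply (i : Fin (4 * 1 - 1)) (u : Rn 1) : cc i u = ((u i : ℝ) : ℂ) := rfl

abbrev j0 : Fin (4 * 1 - 1) := ⟨0, by norm_num⟩
abbrev j1 : Fin (4 * 1 - 1) := ⟨1, by norm_num⟩
abbrev j2 : Fin (4 * 1 - 1) := ⟨2, by norm_num⟩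

/-- the points of the horosphere, in homogeneous coordinates with `⟨z, z⟩ = -1` -/
noncomputable def z (u : Rn 1) : V3 :=
  ![cc j0 u + cc j1 u * Complex.I, (cc j0 u ^ 2 + cc j1 u ^ 2) / 2 + cc j2 u * Complex.I,
    (cc j0 u ^ 2 + cc j1 u ^ 2) / 2 + cc j2 u * Complex.I + 1]

/-- the derivative of `z` -/
noncomputable def p (u X : Rn 1) : V3 :=
  ![cc j0 X + cc j1 X * Complex.I,
    cc j0 u * cc j0 X + cc j1 u * cc j1 X + cc j2 X * Complex.I,
    cc j0 u * cc j0 X + cc j1 u * cc j1 X + cc j2 X * Complex.I]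

/-- the null vector -/
def n0 : V3 := ![0, 1, 1]

lemma contDiff_z : ContDiff ℝ ∞ z := by
  rw [contDiff_pi]
  intro i
  fin_cases i
  · simp only [z]
    exact (cc j0).contDiff.add ((cc j1).contDiff.mul contDiff_const)
  · simp only [z]
    exact ((((cc j0).contDiff.pow 2).add ((cc j1).contDiff.pow 2)).div_const 2).add
      ((cc j2).contDiff.mul contDiff_const)
  · simp only [z]
    exact (((((cc j0).contDiff.pow 2).add ((cc j1).contDiff.pow 2)).div_const 2).add
      ((cc j2).contDiff.mul contDiff_const)).add contDiff_const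

lemma hasDerivAt_cc (i : Fin (4 * 1 - 1)) (u X : Rn 1) :
    HasDerivAt (fun s : ℝ => cc i (u + s • X)) (cc i X) 0 := by
  have h := hasDerivAt_line (cc i).differentiableAt (u := u) X
  simpa using h

lemma hasDerivAt_z (u X : Rn 1) : HasDerivAt (fun s : ℝ => z (u + s • X)) (p u X) 0 := by
  rw [hasDerivAt_pi]
  have h0 := hasDerivAt_cc j0 u X
  have h1 := hasDerivAt_cc j1 u X
  have h2 := hasDerivAt_cc j2 u X
  have hb : HasDerivAt (fun s : ℝ => (cc j0 (u + s • X) ^ 2 + cc j1 (u + s • X) ^ 2) / 2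
      + cc j2 (u + s • X) * Complex.I)
      (cc j0 u * cc j0 X + cc j1 u * cc j1 X + cc j2 X * Complex.I) 0 := by
    have h := (((h0.pow 2).add (h1.pow 2)).div_const 2).add (h2.mul_const Complex.I)
    refine h.congr_deriv ?_
    rw [zero_smul, add_zero]
    push_cast
    ring
  intro i
  fin_cases i
  · exact h0.add (h1.mul_const Complex.I)
  · exact hb
  · exact hb.add_const (1 : ℂ)

/-- `x ↦ |x⟩⟨e|` -/
noncomputable def kl (e : V3) : V3 →L[ℝ] Mat 1 := LinearMap.toContinuousLinearMap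
  { toFun := fun x => ket G3 x e
    map_add' := fun x y => ket_add_left x y e
    map_smul' := fun r x => by
      have h : ∀ (y : V3), r • y = (r : ℂ) • y := fun y => by ext i; simp
      have h' : ∀ (M : Mat 1), r • M = (r : ℂ) • M := fun y => by ext i; simp
      rw [h, ket_smul_left, RingHom.id_apply, h'] }

/-- `x ↦ |e⟩⟨x|` -/
noncomputable def kr (e : V3) : V3 →L[ℝ] Mat 1 := LinearMap.toContinuousLinearMap
  { toFun := fun x => ket G3 e x
    map_add' := fun x y => ket_add_right e x y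
    map_smul' := fun r x => by
      have h : ∀ (y : V3), r • y = (r : ℂ) • y := fun y => by ext i; simp
      have h' : ∀ (M : Mat 1), r • M = (r : ℂ) • M := fun y => by ext i; simp
      rw [h, ket_smul_right, RingHom.id_apply, h', Complex.conj_ofReal] }

lemma hasDerivAt_kl {g : ℝ → V3} {g' : V3} {t : ℝ} (hg : HasDerivAt g g' t) (e : V3) :
    HasDerivAt (fun s => ket G3 (g s) e) (ket G3 g' e) t :=
  (kl e).hasFDerivAt.comp_hasDerivAt t hg

lemma hasDerivAt_kr {g : ℝ → V3} {g' : V3} {t : ℝ} (hg : HasDerivAt g g' t) (e : V3) :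
    HasDerivAt (fun s => ket G3 e (g s)) (ket G3 e g') t :=
  (kr e).hasFDerivAt.comp_hasDerivAt t hg

lemma contDiff_kl {g : Rn 1 → V3} (hg : ContDiff ℝ ∞ g) (e : V3) :
    ContDiff ℝ ∞ (fun u => ket G3 (g u) e) := (kl e).contDiff.comp hg

lemma contDiff_kr {g : Rn 1 → V3} (hg : ContDiff ℝ ∞ g) (e : V3) :
    ContDiff ℝ ∞ (fun u => ket G3 e (g u)) := (kr e).contDiff.comp hg

def e0 : V3 := ![1, 0, 0]

lemma form_e0 : form G3 e0 e0 = 1 := by simp [form3, e0]

lemma ket_split (x y : V3) : ket G3 x y = ket G3 x e0 * ket G3 e0 y := by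
  rw [ket_mul_ket, form_e0, one_smul]

lemma contDiff_ket {g g' : Rn 1 → V3} (hg : ContDiff ℝ ∞ g) (hg' : ContDiff ℝ ∞ g') :
    ContDiff ℝ ∞ (fun u => ket G3 (g u) (g' u)) := by
  have h : (fun u => ket G3 (g u) (g' u)) = fun u => ket G3 (g u) e0 * ket G3 e0 (g' u) := by
    funext u; rw [ket_split]
  rw [h]
  exact (contDiff_kl hg e0).mul (contDiff_kr hg' e0)

lemma hasDerivAt_ket {g k : ℝ → V3} {g' k' : V3} {t : ℝ} (hg : HasDerivAt g g' t)
    (hk : HasDerivAt k k' t) :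
    HasDerivAt (fun s => ket G3 (g s) (k s)) (ket G3 g' (k t) + ket G3 (g t) k') t := by
  have h : (fun s => ket G3 (g s) (k s)) = fun s => ket G3 (g s) e0 * ket G3 e0 (k s) := by
    funext u; rw [ket_split]
  rw [h, ket_split g', ket_split (g t)]
  exact (hasDerivAt_kl hg e0).mul (hasDerivAt_kr hk e0)

/-- the immersion -/
noncomputable def f (u : Rn 1) : Mat 1 := 1 + ket G3 (z u) (z u)

/-- the unit normal -/
noncomputable def N (u : Rn 1) : Mat 1 :=
  (Real.sqrt 2)⁻¹ • (ket G3 n0 (z u) + ket G3 (z u) n0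
    - (ket G3 (z u) (z u) + ket G3 (z u) (z u)))

lemma contDiff_f : ContDiff ℝ ∞ f := contDiff_const.add (contDiff_ket contDiff_z contDiff_z)

lemma contDiff_N : ContDiff ℝ ∞ N :=
  (((contDiff_kr contDiff_z n0).add (contDiff_kl contDiff_z n0)).sub
    ((contDiff_ket contDiff_z contDiff_z).add
      (contDiff_ket contDiff_z contDiff_z))).const_smul (Real.sqrt 2)⁻¹

lemma fderiv_f (u X : Rn 1) :
    fderiv ℝ f u X = ket G3 (p u X) (z u) + ket G3 (z u) (p u X) := by
  have h1 := hasDerivAt_line (contDiff_f.differentiable (by simp) u) X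
  have h2 := (hasDerivAt_ket (hasDerivAt_z u X) (hasDerivAt_z u X)).const_add 1
  have h3 := h1.unique h2
  refine h3.trans ?_
  simp

lemma fderiv_N (u X : Rn 1) :
    fderiv ℝ N u X = (Real.sqrt 2)⁻¹ • (ket G3 n0 (p u X) + ket G3 (p u X) n0
      - (ket G3 (p u X) (z u) + ket G3 (z u) (p u X)
        + (ket G3 (p u X) (z u) + ket G3 (z u) (p u X)))) := by
  have h1 := hasDerivAt_line (contDiff_N.differentiable (by simp) u) X
  have hz := hasDerivAt_z u X
  have h2 := (((hasDerivAt_kr hz n0).add (hasDerivAt_kl hz n0)).sub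
    ((hasDerivAt_ket hz hz).add (hasDerivAt_ket hz hz))).const_smul (Real.sqrt 2)⁻¹
  have h3 := h1.unique h2
  refine h3.trans ?_
  simp

/-! ### Values of the form -/

lemma zz (u : Rn 1) : form G3 (z u) (z u) = -1 := by
  have h2 : (starRingEnd ℂ) 2 = 2 := map_ofNat _ 2
  rw [form3]
  simp only [z, cc_apply]
  simp [h2]
  ring_nf
  rw [Complex.I_sq]
  ring

lemma nz (u : Rn 1) : form G3 n0 (z u) = -1 := by
  rw [form3]
  simp [z, n0]

lemma zn (u : Rn 1) : form G3 (z u) n0 = -1 := by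
  rw [form_conj (gram_conj _ _) n0, nz]
  simp

lemma nn : form G3 n0 n0 = 0 := by
  rw [form3]
  simp [n0]

lemma np (u X : Rn 1) : form G3 n0 (p u X) = 0 := by
  rw [form3]
  simp [p, n0]

lemma pn (u X : Rn 1) : form G3 (p u X) n0 = 0 := by
  rw [form_conj (gram_conj _ _) n0, np]
  simp

lemma zp (u X : Rn 1) : form G3 (z u) (p u X) =
    ((u j0 * X j1 - u j1 * X j0 - X j2 : ℝ) : ℂ) * Complex.I := by
  have h2 : (starRingEnd ℂ) 2 = 2 := map_ofNat _ 2
  rw [form3]
  simp only [z, p, cc_apply]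
  simp [h2]
  ring_nf
  rw [Complex.I_sq]
  ring

lemma pz (u X : Rn 1) : form G3 (p u X) (z u) =
    -(((u j0 * X j1 - u j1 * X j0 - X j2 : ℝ) : ℂ) * Complex.I) := by
  rw [form_conj (gram_conj _ _) (z u), zp]
  simp

end Pool.Agent.Q206.Hyp.Horo
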