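import Pool.Agent.Q206.Hyp.Horo

/-! # The curvature identity of the horosphere -/

open scoped Matrix ComplexConjugate ContDiff Matrix.Norms.Operator Topology
open Matrix

namespace Pool.Agent.Q206.Hyp.Horo

/-- `W D + D W` for `W = tv z w`, `D = tv z p`. -/
lemma anti_tv {z p w : V3} {σ : ℝ} (hzz : form G3 z z = -1) (hzp : form G3 z p = σ * Complex.I)
    (hpz : form G3 p z = -(σ * Complex.I)) (hzw : form G3 z w = 0) (hwz : form G3 w z = 0) :
    (ket G3 w z + ket G3 z w) * (ket G3 p z + ket G3 z p)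
      + (ket G3 p z + ket G3 z p) * (ket G3 w z + ket G3 z w) =
    ((σ : ℂ) * Complex.I) • ket G3 w z - ket G3 w p + (form G3 w p + form G3 p w) • ket G3 z z
      - ket G3 p w - ((σ : ℂ) * Complex.I) • ket G3 z w := by
  simp only [add_mul, mul_add, ket_mul_ket, hzz, hzp, hpz, hzw, hwz]
  module

lemma anti_xi {z q n : V3} {τ : ℝ} (c : ℂ) (hzz : form G3 z z = -1)
    (hzq : form G3 z q = τ * Complex.I) (hqz : form G3 q z = -(τ * Complex.I))
    (hzn : form G3 z n = -1) (hnz : form G3 n z = -1)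
    (hnq : form G3 n q = 0) (hqn : form G3 q n = 0) :
    (ket G3 q z + ket G3 z q) * (c • (ket G3 n z - ket G3 z n))
      + (c • (ket G3 n z - ket G3 z n)) * (ket G3 q z + ket G3 z q) =
    c • (ket G3 z q - ket G3 q z + ket G3 q n - ket G3 n q
      + ((τ : ℂ) * Complex.I) • ket G3 z n + ((τ : ℂ) * Complex.I) • ket G3 n z) := by
  simp only [add_mul, mul_add, sub_mul, mul_sub, smul_mul_assoc, mul_smul_comm, ket_mul_ket, hzz,
    hzq, hqz, hzn, hnz, hnq, hqn]
  module

/-- The trace of the product of the two preceding matrices. -/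
lemma trace_prod {z p q w n : V3} {σ τ ρ : ℝ} (c : ℂ) (hzz : form G3 z z = -1)
    (hzp : form G3 z p = σ * Complex.I) (hpz : form G3 p z = -(σ * Complex.I))
    (hzq : form G3 z q = τ * Complex.I) (hqz : form G3 q z = -(τ * Complex.I))
    (hzw : form G3 z w = 0) (hwz : form G3 w z = 0)
    (hzn : form G3 z n = -1) (hnz : form G3 n z = -1)
    (hnp : form G3 n p = 0) (hpn : form G3 p n = 0)
    (hnw : form G3 n w = ρ * Complex.I) (hwn : form G3 w n = -(ρ * Complex.I)) :
    trace ((((σ : ℂ) * Complex.I) • ket G3 w z - ket G3 w p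
      + (form G3 w p + form G3 p w) • ket G3 z z
      - ket G3 p w - ((σ : ℂ) * Complex.I) • ket G3 z w) *
      (c • (ket G3 z q - ket G3 q z + ket G3 q n - ket G3 n q
      + ((τ : ℂ) * Complex.I) • ket G3 z n + ((τ : ℂ) * Complex.I) • ket G3 n z))) =
    c * Complex.I * (σ * (form G3 q w + form G3 w q) - ρ * (form G3 p q + form G3 q p)
      - 2 * σ * τ * ρ + 2 * τ * (form G3 w p + form G3 p w)) := by
  simp only [add_mul, mul_add, sub_mul, mul_sub, smul_mul_assoc, mul_smul_comm, ket_mul_ket, hzz,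
    hzp, hpz, hzq, hqz, hzn, hnz, hzw, hwz, hnp, hpn, hnw, hwn, trace_add,
    trace_sub, trace_smul, trace_ket, smul_eq_mul]
  ring_nf
  simp only [Complex.I_pow_three]
  ring

end Pool.Agent.Q206.Hyp.Horo
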