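import Pool.Agent.Q206.Hyp.HoroMain

/-! # A frame of the quaternionic structure along the horosphere -/

open scoped Matrix ComplexConjugate ContDiff Matrix.Norms.Operator Topology
open Matrix

namespace Pool.Agent.Q206.Hyp

/-- A local orthonormal frame `J₁, J₂, J₃` of the quaternionic Kähler structure along `M`, with
`J₁ J₂ = J₃` and cyclically. (Each `J i` is a `QuatSection`, so `J i ∘ J i = -1`.) -/
structure Frame {s : Space} {m : ℕ} (M : Hypersurface s m) where
  /-- the three sections -/
  J : Fin 3 → M.QuatSection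
  cyclic : ∀ u ∈ M.U, ∀ V, IsTan (gram s m) (M.f u) V →
    quat ((J 0).q u) (quat ((J 1).q u) V) = quat ((J 2).q u) V ∧
    quat ((J 1).q u) (quat ((J 2).q u) V) = quat ((J 0).q u) V ∧
    quat ((J 2).q u) (quat ((J 0).q u) V) = quat ((J 1).q u) V

lemma quat_comp {s : Space} {m : ℕ} {P V q q' : Mat m} (hPP : P * P = P)
    (hV : IsTan (gram s m) P V) (hq : IsUnitQuat s P q) (hq' : IsUnitQuat s P q') :
    quat q (quat q' V) = V * (q' * q) + q * q' * V := by
  have hPVP : P * V * P = 0 := by
    have : P * (P * V + V * P) * P = P * V * P := by rw [hV.2]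
    rw [mul_add, add_mul, ← mul_assoc P P V, hPP, ← mul_assoc P V P,
      mul_assoc (P * V) P P, hPP] at this
    simpa using this
  have h : ∀ a b : Mat m, a * P = a → P * b = b → a * V * b = 0 := by
    intro a b ha hb
    rw [← ha, ← hb]
    calc a * P * V * (P * b) = a * (P * V * P) * b := by noncomm_ring
      _ = 0 := by rw [hPVP]; simp
  have h1 := h q' q hq'.2.1 hq.1
  have h2 := h q q' hq.2.1 hq'.1
  rw [quat, quat, sub_mul, mul_sub, h1, ← mul_assoc, h2]
  noncomm_ring

namespace Horo

lemma quat_aux {P q : Mat 1} (h1 : P * q = q) (h2 : q * P = q) (h3 : adj G3 q = -q)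
    (h4 : trace q = 0) (h5 : q * q = -P) : IsUnitQuat .noncompact P q := ⟨h1, h2, h3, h4, h5⟩

noncomputable def q0 (u : Rn 1) : Mat 1 :=
  Complex.I • (ket G3 (e1 u) (e1 u) - ket G3 (v0 u) (v0 u))

noncomputable def q1 (u : Rn 1) : Mat 1 := ket G3 (e1 u) (v0 u) - ket G3 (v0 u) (e1 u)

noncomputable def q2 (u : Rn 1) : Mat 1 :=
  -(Complex.I • (ket G3 (e1 u) (v0 u) + ket G3 (v0 u) (e1 u)))

lemma II (M : Mat 1) : Complex.I • Complex.I • M = -M := by
  rw [smul_smul, Complex.I_mul_I, neg_one_smul]

lemma q0_unit (u : Rn 1) : IsUnitQuat .noncompact (f u) (q0 u) := by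
  refine quat_aux ?_ ?_ ?_ ?_ ?_
  · simp only [complete, q0, add_mul, mul_sub, mul_smul_comm, ket_mul_ket, ee, vv, ev, ve]
    module
  · simp only [complete, q0, mul_add, sub_mul, smul_mul_assoc, ket_mul_ket, ee, vv, ev, ve]
    module
  · rw [q0, adj_smul, adj_sub, adj_ket (gram_conj _ _) (gram_mul _ _),
      adj_ket (gram_conj _ _) (gram_mul _ _), Complex.conj_I, neg_smul]
  · rw [q0, trace_smul, trace_sub, trace_ket, trace_ket, ee, vv, sub_self, smul_zero]
  · simp only [complete, q0, mul_sub, sub_mul, smul_mul_assoc, mul_smul_comm, ket_mul_ket, ee, vv,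
      ev, ve]
    linear_combination (norm := module) Complex.I_mul_I • (ket G3 (e1 u) (e1 u)
      + ket G3 (v0 u) (v0 u))

lemma q1_unit (u : Rn 1) : IsUnitQuat .noncompact (f u) (q1 u) := by
  refine quat_aux ?_ ?_ ?_ ?_ ?_
  · simp only [complete, q1, add_mul, mul_sub, ket_mul_ket, ee, vv, ev, ve]
    module
  · simp only [complete, q1, mul_add, sub_mul, ket_mul_ket, ee, vv, ev, ve]
    module
  · rw [q1, adj_sub, adj_ket (gram_conj _ _) (gram_mul _ _),
      adj_ket (gram_conj _ _) (gram_mul _ _), neg_sub]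
  · rw [q1, trace_sub, trace_ket, trace_ket, ev, ve, sub_self]
  · simp only [complete, q1, mul_sub, sub_mul, ket_mul_ket, ee, vv, ev, ve]
    module

lemma q2_unit (u : Rn 1) : IsUnitQuat .noncompact (f u) (q2 u) := by
  refine quat_aux ?_ ?_ ?_ ?_ ?_
  · simp only [complete, q2, add_mul, mul_add, mul_neg, mul_smul_comm, ket_mul_ket, ee, vv, ev, ve]
    module
  · simp only [complete, q2, mul_add, add_mul, neg_mul, smul_mul_assoc, ket_mul_ket, ee, vv, ev,
      ve]
    module
  · rw [q2, adj_neg, adj_smul, adj_add, adj_ket (gram_conj _ _) (gram_mul _ _),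
      adj_ket (gram_conj _ _) (gram_mul _ _), Complex.conj_I]
    module
  · rw [q2, trace_neg, trace_smul, trace_add, trace_ket, trace_ket, ev, ve, add_zero, smul_zero,
      neg_zero]
  · simp only [complete, q2, mul_add, add_mul, neg_mul, mul_neg, smul_mul_assoc, mul_smul_comm,
      ket_mul_ket, ee, vv, ev, ve]
    linear_combination (norm := module) Complex.I_mul_I • (ket G3 (e1 u) (e1 u)
      + ket G3 (v0 u) (v0 u))

lemma rel01 (u : Rn 1) : q1 u * q0 u = q2 u ∧ q0 u * q1 u = -q2 u := by
  constructor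
  · simp only [q0, q1, q2, mul_sub, sub_mul, mul_smul_comm, ket_mul_ket, ee, vv, ev, ve]
    module
  · simp only [q0, q1, q2, mul_sub, sub_mul, smul_mul_assoc, ket_mul_ket, ee, vv, ev, ve]
    module

lemma rel12 (u : Rn 1) : q2 u * q1 u = q0 u ∧ q1 u * q2 u = -q0 u := by
  constructor
  · simp only [q0, q1, q2, mul_sub, add_mul, neg_mul, smul_mul_assoc, ket_mul_ket, ee, vv, ev, ve]
    module
  · simp only [q0, q1, q2, sub_mul, mul_add, mul_neg, mul_smul_comm, ket_mul_ket, ee, vv, ev, ve]
    module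

lemma rel20 (u : Rn 1) : q0 u * q2 u = q1 u ∧ q2 u * q0 u = -q1 u := by
  constructor
  · simp only [q0, q1, q2, sub_mul, mul_add, mul_neg, smul_mul_assoc, mul_smul_comm,
      ket_mul_ket, ee, vv, ev, ve]
    linear_combination (norm := module) (-Complex.I_mul_I) • (ket G3 (e1 u) (v0 u)
      - ket G3 (v0 u) (e1 u))
  · simp only [q0, q1, q2, mul_sub, add_mul, neg_mul, smul_mul_assoc, mul_smul_comm,
      ket_mul_ket, ee, vv, ev, ve]
    linear_combination (norm := module) Complex.I_mul_I • (ket G3 (e1 u) (v0 u)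
      - ket G3 (v0 u) (e1 u))

/-- the sections of the quaternionic structure -/
noncomputable def s0 : horo.QuatSection where
  q := q0
  smooth_q := (((contDiff_ket contDiff_e1 contDiff_e1).sub
    (contDiff_ket contDiff_v0 contDiff_v0)).const_smul Complex.I).contDiffOn
  unit_q := fun u _ => q0_unit u

noncomputable def s1 : horo.QuatSection where
  q := q1
  smooth_q := ((contDiff_ket contDiff_e1 contDiff_v0).sub
    (contDiff_ket contDiff_v0 contDiff_e1)).contDiffOn
  unit_q := fun u _ => q1_unit u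

noncomputable def s2 : horo.QuatSection where
  q := q2
  smooth_q := (((contDiff_ket contDiff_e1 contDiff_v0).add
    (contDiff_ket contDiff_v0 contDiff_e1)).const_smul Complex.I).neg.contDiffOn
  unit_q := fun u _ => q2_unit u

/-- the frame -/
noncomputable def frame : Frame horo where
  J := ![s0, s1, s2]
  cyclic := by
    intro u _ V hV
    have hPP := f_idem u
    refine ⟨?_, ?_, ?_⟩
    · change quat (q0 u) (quat (q1 u) V) = quat (q2 u) V
      rw [quat_comp hPP hV (q0_unit u) (q1_unit u), (rel01 u).1, (rel01 u).2, quat]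
      noncomm_ring
    · change quat (q1 u) (quat (q2 u) V) = quat (q0 u) V
      rw [quat_comp hPP hV (q1_unit u) (q2_unit u), (rel12 u).1, (rel12 u).2, quat]
      noncomm_ring
    · change quat (q2 u) (quat (q0 u) V) = quat (q1 u) V
      rw [quat_comp hPP hV (q2_unit u) (q0_unit u), (rel20 u).1, (rel20 u).2, quat]
      noncomm_ring

/-- `J₁ N = J N` along the horosphere. -/
lemma xiq_eq (u : Rn 1) : horo.ξq (frame.J 0) u = horo.ξ u := by
  change -quat (q0 u) (N u) = -cplx (f u) (N u)
  congr 1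
  rw [quat, cplx, N_eq, rsmul]
  simp only [complete, q0, tv, mul_sub, sub_mul, mul_add, add_mul, smul_mul_assoc, mul_smul_comm,
      ket_mul_ket, vv, ev, ve, vz, zv, ez, ze]
  module

end Horo

end Pool.Agent.Q206.Hyp
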