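import Pool.Agent.Q206.Hyp.HoroCurv

/-! # The horosphere as a hypersurface -/

open scoped Matrix ComplexConjugate ContDiff Matrix.Norms.Operator Topology
open Matrix

namespace Pool.Agent.Q206.Hyp.Horo

/-- `1/√2` -/
noncomputable def r2 : ℝ := (Real.sqrt 2)⁻¹

lemma r2_sq : r2 * r2 = 1 / 2 := by
  rw [r2, ← mul_inv, Real.mul_self_sqrt (by norm_num)]
  norm_num

lemma r2_pos : 0 < r2 := by
  rw [r2]; positivity

lemma rsmul (r : ℝ) (M : Mat 1) : r • M = (r : ℂ) • M := by
  ext i j
  simp

noncomputable def v0 (u : Rn 1) : V3 := n0 - z u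

noncomputable def e1 (u : Rn 1) : V3 :=
  ![1, cc j0 u - cc j1 u * Complex.I, cc j0 u - cc j1 u * Complex.I]

lemma contDiff_v0 : ContDiff ℝ ∞ v0 := contDiff_const.sub contDiff_z

lemma contDiff_e1 : ContDiff ℝ ∞ e1 := by
  rw [contDiff_pi]
  intro i
  fin_cases i
  · exact contDiff_const
  · exact (cc j0).contDiff.sub ((cc j1).contDiff.mul contDiff_const)
  · exact (cc j0).contDiff.sub ((cc j1).contDiff.mul contDiff_const)

lemma zv (u : Rn 1) : form G3 (z u) (v0 u) = 0 := by
  rw [v0, form_sub_right, zn, zz, sub_self]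

lemma vz (u : Rn 1) : form G3 (v0 u) (z u) = 0 := by
  rw [form_conj (gram_conj _ _) (z u), zv, map_zero]

lemma vv (u : Rn 1) : form G3 (v0 u) (v0 u) = 1 := by
  rw [v0, form_sub_left, form_sub_right, form_sub_right, nn, nz, zn, zz]
  norm_num

lemma ez (u : Rn 1) : form G3 (e1 u) (z u) = 0 := by
  rw [form3]
  simp only [z, e1, cc_apply]
  simp
  ring

lemma ze (u : Rn 1) : form G3 (z u) (e1 u) = 0 := by
  rw [form_conj (gram_conj _ _) (e1 u), ez, map_zero]

lemma en (u : Rn 1) : form G3 (e1 u) n0 = 0 := by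
  rw [form3]
  simp [n0, e1]

lemma ev (u : Rn 1) : form G3 (e1 u) (v0 u) = 0 := by
  rw [v0, form_sub_right, en, ez, sub_self]

lemma ve (u : Rn 1) : form G3 (v0 u) (e1 u) = 0 := by
  rw [form_conj (gram_conj _ _) (e1 u), ev, map_zero]

lemma ee (u : Rn 1) : form G3 (e1 u) (e1 u) = 1 := by
  rw [form3]
  simp [e1]

lemma ket_apply (x y : V3) (i j : Fin (1 + 2)) :
    ket G3 x y i j = x i * conj (y j) * (if j.val < 2 then 1 else -1) := by
  simp [ket, G3, gram, vecMulVec_apply, vecMul_diagonal, Space.sign]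

/-- completeness -/
lemma complete (u : Rn 1) : f u = ket G3 (e1 u) (e1 u) + ket G3 (v0 u) (v0 u) := by
  have h2 : (starRingEnd ℂ) 2 = 2 := map_ofNat _ 2
  ext i j
  rw [f, Matrix.add_apply, Matrix.add_apply, ket_apply, ket_apply, ket_apply]
  fin_cases i <;> fin_cases j <;>
    simp [z, e1, v0, n0, cc_apply, h2] <;>
    ring_nf <;>
    simp only [Complex.I_sq] <;>
    ring

lemma f_mulVec (u : Rn 1) (x : V3) : f u *ᵥ x = x + form G3 (z u) x • z u := by
  rw [f, add_mulVec, one_mulVec, ket_mulVec]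

lemma f_z (u : Rn 1) : f u *ᵥ z u = 0 := by
  rw [f_mulVec, zz]
  simp

lemma f_of_orth {u : Rn 1} {x : V3} (h : form G3 (z u) x = 0) : f u *ᵥ x = x := by
  rw [f_mulVec, h, zero_smul, add_zero]

lemma z_ne (u : Rn 1) : z u ≠ 0 := by
  intro h
  have := zz u
  rw [h, form_zero_left] at this
  norm_num at this

lemma f_idem (u : Rn 1) : f u * f u = f u := by
  simp only [f, add_mul, mul_add, one_mul, mul_one, ket_mul_ket, zz]
  module

lemma f_adj (u : Rn 1) : adj G3 (f u) = f u := by
  rw [f, adj_add, adj_one (gram_mul _ _), adj_ket (gram_conj _ _) (gram_mul _ _)]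

lemma f_plane (u : Rn 1) : IsPlane .noncompact (f u) := by
  refine ⟨f_idem u, f_adj u, ?_, ?_, ?_⟩
  · rw [f, trace_add, trace_one, trace_ket, zz]
    simp
    norm_num
  · intro x hx hPx
    have h1 : form G3 (z u) x = 0 := by
      rw [f_mulVec, add_eq_left] at hPx
      exact (smul_eq_zero.1 hPx).resolve_right (z_ne u)
    have h2 : x = form G3 (e1 u) x • e1 u + form G3 (v0 u) x • v0 u := by
      conv_lhs => rw [← hPx, complete, add_mulVec, ket_mulVec, ket_mulVec]
    have h3 : form G3 x x = form G3 (e1 u) x * conj (form G3 (e1 u) x)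
        + form G3 (v0 u) x * conj (form G3 (v0 u) x) := by
      conv_lhs => rw [h2]
      simp only [form_add_left, form_add_right, form_smul_left, form_smul_right, ee, vv, ev, ve]
      ring
    change 0 < (form G3 x x).re
    rw [h3, Complex.mul_conj, Complex.mul_conj, ← Complex.ofReal_add, Complex.ofReal_re]
    by_contra hcon
    have n1 := Complex.normSq_nonneg (form G3 (e1 u) x)
    have n2 := Complex.normSq_nonneg (form G3 (v0 u) x)
    have m1 : form G3 (e1 u) x = 0 := Complex.normSq_eq_zero.1 (by linarith)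
    have m2 : form G3 (v0 u) x = 0 := Complex.normSq_eq_zero.1 (by linarith)
    apply hx
    rw [h2, m1, m2, zero_smul, zero_smul, add_zero]
  · intro x hx hPx
    have h1 : x = -(form G3 (z u) x) • z u := by
      rw [f_mulVec] at hPx
      rw [neg_smul]
      exact eq_neg_of_add_eq_zero_left hPx
    have h2 : form G3 (z u) x ≠ 0 := by
      intro h
      apply hx
      rw [h1, h, neg_zero, zero_smul]
    have h3 : form G3 x x = -(form G3 (z u) x * conj (form G3 (z u) x)) := by
      conv_lhs => rw [h1]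
      rw [form_smul_left, form_smul_right, zz]
      simp
      ring
    have h4 := Complex.normSq_pos.2 h2
    change 0 < (-1 : ℝ) * (form G3 x x).re
    rw [h3, Complex.mul_conj, Complex.neg_re, Complex.ofReal_re]
    linarith

lemma N_eq (u : Rn 1) : N u = r2 • tv G3 (z u) (v0 u) := by
  have h1 : ket G3 (v0 u) (z u) = ket G3 n0 (z u) - ket G3 (z u) (z u) := by
    rw [v0, sub_eq_add_neg, ket_add_left, ← neg_one_smul ℂ (z u), ket_smul_left]
    module
  have h2 : ket G3 (z u) (v0 u) = ket G3 (z u) n0 - ket G3 (z u) (z u) := by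
    have : v0 u = n0 + (-1 : ℂ) • z u := by rw [v0]; module
    rw [this, ket_add_right, ket_smul_right]
    simp
    module
  rw [N, tv, h1, h2, r2]
  module

lemma N_tan (u : Rn 1) : IsTan G3 (f u) (N u) := by
  rw [N_eq]
  exact (tv_tan (gram_conj _ _) (gram_mul _ _) (f_adj u) (f_of_orth (zv u)) (f_z u)).smul r2

/-- tangent vectors -/
lemma tan_eq {u : Rn 1} {V : Mat 1} (hV : IsTan G3 (f u) V) : V = tv G3 (z u) (-(V *ᵥ z u)) := by
  have h1 : V * (1 - f u) = ket G3 (-(V *ᵥ z u)) (z u) := by
    rw [f, sub_add_cancel_left, mul_neg, mul_ket, ← neg_one_smul ℂ (V *ᵥ z u), ket_smul_left,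
      neg_one_smul]
  have h2 : (1 - f u) * V = ket G3 (z u) (-(V *ᵥ z u)) := by
    rw [f, sub_add_cancel_left, neg_mul, ket_mul (gram_conj _ _) (gram_mul _ _), hV.1,
      ← neg_one_smul ℂ (V *ᵥ z u), ket_smul_right]
    simp
  have h3 : V = (1 - f u) * V + V * (1 - f u) := by
    have : (1 - f u) * V + V * (1 - f u) = V + V - (f u * V + V * f u) := by noncomm_ring
    rw [this, hV.2, add_sub_cancel_right]
  rw [tv, ← h1, ← h2]
  exact h3

lemma form_neg_left (x y : V3) : form G3 (-x) y = -form G3 x y := by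
  simp [form]

lemma tv_mulVec_z {u : Rn 1} {w : V3} (hw : form G3 w (z u) = 0) :
    tv G3 (z u) w *ᵥ z u = -w := by
  rw [tv, add_mulVec, ket_mulVec, ket_mulVec, hw, zz, zero_smul, zero_add, neg_one_smul]

lemma metric_tv {u : Rn 1} {w : V3} {M : Mat 1} (hM : adj G3 M = M) :
    metric .noncompact (tv G3 (z u) w) M = -(2 * (form G3 w (M *ᵥ z u)).re) := by
  rw [metric, trace_tv_re (gram_conj _ _) (gram_mul _ _) hM, form_mulVec_left (gram_mul _ _), hM]
  simp [Space.sign]

lemma metric_self {u : Rn 1} {V : Mat 1} (hV : IsTan G3 (f u) V) :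
    metric .noncompact V V = 2 * (form G3 (V *ᵥ z u) (V *ᵥ z u)).re := by
  conv_lhs => rw [tan_eq hV]
  rw [metric_tv (by rw [← tan_eq hV]; exact hV.1), ← tan_eq hV, form_neg_left]
  simp

lemma tan_orth {u : Rn 1} {V : Mat 1} (hV : IsTan G3 (f u) V) :
    form G3 (z u) (V *ᵥ z u) = 0 := by
  have h1 : f u *ᵥ (V *ᵥ z u) = V *ᵥ z u := tan_im (f_idem u) hV (f_z u)
  rw [f_mulVec, add_eq_left] at h1
  exact (smul_eq_zero.1 h1).resolve_right (z_ne u)

/-- definiteness of the metric -/
lemma eq_zero_of_metric {u : Rn 1} {V : Mat 1} (hV : IsTan G3 (f u) V)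
    (h : metric .noncompact V V = 0) : V = 0 := by
  rw [metric_self hV] at h
  have h1 : f u *ᵥ (V *ᵥ z u) = V *ᵥ z u := tan_im (f_idem u) hV (f_z u)
  have h2 : V *ᵥ z u = 0 := by
    by_contra hne
    have := (f_plane u).2.2.2.1 _ hne h1
    linarith
  rw [tan_eq hV, h2, neg_zero, tv, ket_zero_left, ket_zero_right, add_zero]

lemma N_unit (u : Rn 1) : metric .noncompact (N u) (N u) = 1 := by
  have h1 : N u *ᵥ z u = -((r2 : ℂ) • v0 u) := by
    rw [N_eq, rsmul, smul_mulVec, tv_mulVec_z (vz u), smul_neg]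
  rw [metric_self (N_tan u), h1, ← neg_one_smul ℂ, form_smul_left, form_smul_left,
    form_smul_right, form_smul_right, vv]
  simp
  linarith [r2_sq]

lemma d_tan' (u X : Rn 1) : IsTan G3 (f u) (fderiv ℝ f u X) := by
  rw [fderiv_f]
  constructor
  · rw [adj_add, adj_ket (gram_conj _ _) (gram_mul _ _), adj_ket (gram_conj _ _) (gram_mul _ _)]
    exact add_comm _ _
  · simp only [f, add_mul, mul_add, one_mul, mul_one, ket_mul_ket, zz, zp, pz]
    module

lemma metric_N {u : Rn 1} {V : Mat 1} (hV : IsTan G3 (f u) V) :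
    metric .noncompact V (N u) = -(2 * r2 * (form G3 n0 (V *ᵥ z u)).re) := by
  have h0 : IsTan G3 (f u) V := hV
  have h1 : metric .noncompact V (N u) = metric .noncompact (N u) V := metric_comm _ _ _
  have h2 : metric .noncompact (N u) V = r2 * metric .noncompact (tv G3 (z u) (v0 u)) V := by
    rw [N_eq, metric_eq, metric_eq, smul_mul_assoc, map_smul, smul_eq_mul]
  rw [h1, h2, metric_tv hV.1, v0, form_sub_left, tan_orth hV, sub_zero]
  ring

lemma d_orth (u X : Rn 1) : metric .noncompact (fderiv ℝ f u X) (N u) = 0 := by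
  rw [metric_N (d_tan' u X), fderiv_f, add_mulVec, ket_mulVec, ket_mulVec, zz, pz,
    form_add_right, form_smul_right, form_smul_right, np, nz]
  simp

lemma p_zero {u X : Rn 1} (h : p u X = 0) : X = 0 := by
  have h0 : cc j0 X + cc j1 X * Complex.I = 0 := congrFun h 0
  have h1 : cc j0 u * cc j0 X + cc j1 u * cc j1 X + cc j2 X * Complex.I = 0 := congrFun h 1
  simp only [cc_apply] at h0 h1
  have a0 : X j0 = 0 := by simpa using congrArg Complex.re h0
  have a1 : X j1 = 0 := by simpa using congrArg Complex.im h0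
  have a2 : X j2 = 0 := by
    have := congrArg Complex.im h1
    simpa [a0, a1] using this
  ext i
  fin_cases i
  · exact a0
  · exact a1
  · exact a2

lemma f_inj (u : Rn 1) : Function.Injective (fderiv ℝ f u) := by
  rw [injective_iff_map_eq_zero]
  intro X hX
  rw [fderiv_f] at hX
  have h1 : (ket G3 (p u X) (z u) + ket G3 (z u) (p u X)) *ᵥ z u = 0 := by
    rw [hX, zero_mulVec]
  rw [add_mulVec, ket_mulVec, ket_mulVec, zz] at h1
  have h2 := congrArg (form G3 n0) h1
  rw [form_add_right, form_smul_right, form_smul_right, np, nz, form_zero_right, mul_zero,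
    zero_add, mul_neg, mul_one, neg_eq_zero] at h2
  rw [h2, zero_smul, add_zero, neg_one_smul, neg_eq_zero] at h1
  exact p_zero h1

lemma f_surj {u : Rn 1} {V : Mat 1} (hV : IsTan G3 (f u) V)
    (hN : metric .noncompact V (N u) = 0) : ∃ X, fderiv ℝ f u X = V := by
  set v : V3 := -(V *ᵥ z u) with hv
  have hzv : form G3 (z u) v = 0 := by
    rw [hv, form_neg_right, tan_orth hV, neg_zero]
  rw [metric_N hV, neg_eq_zero] at hN
  have h1 : (form G3 n0 (V *ᵥ z u)).re = 0 := by
    rcases mul_eq_zero.1 hN with h | h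
    · have := r2_pos
      linarith
    · exact h
  have h2 : (form G3 n0 v).re = 0 := by
    rw [hv, form_neg_right, Complex.neg_re, h1, neg_zero]
  -- the vector `q = v + h(n0, v) z`
  set q : V3 := v + form G3 n0 v • z u with hq
  have hnq : form G3 n0 q = 0 := by
    rw [hq, form_add_right, form_smul_right, nz]
    ring
  have hzq : form G3 (z u) q = -form G3 n0 v := by
    rw [hq, form_add_right, form_smul_right, zz, hzv]
    ring
  have hq12 : q 1 = q 2 := by
    rw [form3] at hnq
    simp [n0] at hnq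
    exact sub_eq_zero.1 hnq
  have hre : (form G3 (z u) q).re = 0 := by
    rw [hzq, Complex.neg_re, h2, neg_zero]
  have hq1 : (q 1).re = u j0 * (q 0).re + u j1 * (q 0).im := by
    rw [form3, ← hq12] at hre
    have h22 : (starRingEnd ℂ) 2 = 2 := map_ofNat _ 2
    simp only [z, cc_apply] at hre
    generalize u.ofLp j0 = a at hre ⊢
    generalize u.ofLp j1 = b at hre ⊢
    generalize u.ofLp j2 = c at hre ⊢
    simp [h22] at hre
    linarith
  refine ⟨!₂[(q 0).re, (q 0).im, (q 1).im], ?_⟩
  have hp : p u !₂[(q 0).re, (q 0).im, (q 1).im] = q := by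
    ext i
    fin_cases i
    · simp [p, cc_apply]
    · apply Complex.ext
      · simp [p, cc_apply, hq1]
      · simp [p, cc_apply]
    · rw [show q ⟨2, _⟩ = q 1 from hq12.symm]
      apply Complex.ext
      · simp [p, cc_apply, hq1]
      · simp [p, cc_apply]
  rw [fderiv_f, hp, tan_eq hV, ← hv, tv, hq, ket_add_left, ket_add_right, ket_smul_left,
    ket_smul_right]
  have h3 : conj (form G3 n0 v) = -form G3 n0 v := by
    apply Complex.ext
    · simp [h2]
    · simp
  rw [h3]
  module

/-- The horosphere as a hypersurface of `SU(2,1)/S(U(2)×U(1)) = ℂH²`. -/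
noncomputable def horo : Hypersurface .noncompact 1 where
  U := Set.univ
  isOpen := isOpen_univ
  connected := isConnected_univ
  f := f
  N := N
  smooth_f := contDiff_f.contDiffOn
  smooth_N := contDiff_N.contDiffOn
  mem := fun u _ => f_plane u
  immersion := fun u _ => f_inj u
  tangent_N := fun u _ => N_tan u
  unit_N := fun u _ => N_unit u
  image := by
    intro u _
    ext V
    constructor
    · rintro ⟨X, rfl⟩
      exact ⟨d_tan' u X, d_orth u X⟩
    · rintro ⟨h1, h2⟩
      exact f_surj h1 h2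

end Pool.Agent.Q206.Hyp.Horo
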