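import Pool.Agent.Q206.Hyp.HoroHyp

/-! # The curvature of the horosphere -/

open scoped Matrix ComplexConjugate ContDiff Matrix.Norms.Operator Topology
open Matrix

namespace Pool.Agent.Q206.Hyp.Horo

lemma xi_eq (u : Rn 1) :
    horo.ξ u = (-(r2 : ℂ) * Complex.I) • (ket G3 n0 (z u) - ket G3 (z u) n0) := by
  have h : horo.ξ u = -(Complex.I • (f u * N u - N u * f u)) := rfl
  rw [h, N, rsmul]
  simp only [f, add_mul, mul_add, sub_mul, mul_sub, one_mul, mul_one, smul_mul_assoc,
    mul_smul_comm, ket_mul_ket, zz, nz, zn, r2]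
  module

section traces

variable {z p q w n : V3} {σ τ ρ : ℝ} (c : ℂ)

lemma tr_xi_dN (hzz : form G3 z z = -1) (hzq : form G3 z q = τ * Complex.I)
    (hqz : form G3 q z = -(τ * Complex.I)) (hzn : form G3 z n = -1) (hnz : form G3 n z = -1)
    (hnn : form G3 n n = 0) (hnq : form G3 n q = 0) (hqn : form G3 q n = 0) :
    trace ((c • (ket G3 n z - ket G3 z n)) *
      (ket G3 n q + ket G3 q n - (ket G3 q z + ket G3 z q + (ket G3 q z + ket G3 z q)))) =
    c * Complex.I * (4 * τ) := by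
  simp only [add_mul, mul_add, sub_mul, mul_sub, smul_mul_assoc, mul_smul_comm, ket_mul_ket,
    trace_add, trace_sub, trace_smul, trace_ket, smul_eq_mul, hzz, hzq, hqz, hzn, hnz, hnn, hnq,
    hqn]
  ring

lemma tr_dN_W (hzz : form G3 z z = -1) (hzp : form G3 z p = σ * Complex.I)
    (hpz : form G3 p z = -(σ * Complex.I)) (hzn : form G3 z n = -1) (hnz : form G3 n z = -1)
    (hzw : form G3 z w = 0) (hwz : form G3 w z = 0)
    (hnw : form G3 n w = ρ * Complex.I) (hwn : form G3 w n = -(ρ * Complex.I)) :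
    trace ((ket G3 n p + ket G3 p n - (ket G3 p z + ket G3 z p + (ket G3 p z + ket G3 z p))) *
      (ket G3 w z + ket G3 z w)) =
    form G3 p w + form G3 w p - 2 * σ * ρ := by
  simp only [add_mul, mul_add, sub_mul, mul_sub, ket_mul_ket,
    trace_add, trace_sub, trace_smul, trace_ket, smul_eq_mul, hzz, hzp, hpz, hzn, hnz, hzw, hwz,
    hnw, hwn]
  ring_nf
  simp only [Complex.I_sq]
  ring

lemma tr_d_W (hzz : form G3 z z = -1) (hzw : form G3 z w = 0) (hwz : form G3 w z = 0) :
    trace ((ket G3 p z + ket G3 z p) * (ket G3 w z + ket G3 z w)) =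
    -(form G3 p w + form G3 w p) := by
  simp only [add_mul, mul_add, ket_mul_ket, trace_add, trace_smul, trace_ket, smul_eq_mul, hzz,
    hzw, hwz]
  ring

lemma tr_d_xi (hzz : form G3 z z = -1) (hzp : form G3 z p = σ * Complex.I)
    (hpz : form G3 p z = -(σ * Complex.I)) (hzn : form G3 z n = -1) (hnz : form G3 n z = -1)
    (hnp : form G3 n p = 0) (hpn : form G3 p n = 0) :
    trace ((ket G3 p z + ket G3 z p) * (c • (ket G3 n z - ket G3 z n))) =
    -(c * Complex.I * (2 * σ)) := by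
  simp only [add_mul, mul_add, sub_mul, mul_sub, smul_mul_assoc, mul_smul_comm, ket_mul_ket,
    trace_add, trace_sub, trace_smul, trace_ket, smul_eq_mul, hzz, hzp, hpz, hzn, hnz, hnp, hpn]
  ring

end traces

lemma cI : (-(r2 : ℂ) * Complex.I) * Complex.I = (r2 : ℂ) := by
  rw [mul_assoc, Complex.I_mul_I]
  ring

lemma add_conj_re (a : ℂ) : a + conj a = ((2 * a.re : ℝ) : ℂ) := by
  rw [Complex.add_conj]

/-- the real coefficient `σ(X)` -/
noncomputable def sg (u X : Rn 1) : ℝ := u j0 * X j1 - u j1 * X j0 - X j2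

/-- **The horosphere satisfies the `κ`-nullity condition with `κ = 1/2`.** -/
theorem horo_R (u X Y : Rn 1) : horo.R X Y horo.ξ u =
    (1 / 2 : ℝ) • (horo.η u Y • horo.d u X - horo.η u X • horo.d u Y) := by
  have hu : u ∈ horo.U := Set.mem_univ u
  have ht := horo.R_tan hu horo.ξ_smooth (fun v hv => (horo.ξ_tan v hv).1) X Y
  have htX := horo.d_tan hu X
  have htY := horo.d_tan hu Y
  set D : Mat 1 := horo.R X Y horo.ξ u -
    (1 / 2 : ℝ) • (horo.η u Y • horo.d u X - horo.η u X • horo.d u Y) with hD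
  have hDt : IsTan G3 (f u) D :=
    ht.1.sub (((htX.1.smul _).sub (htY.1.smul _)).smul _)
  have hDN : metric .noncompact D (horo.N u) = 0 := by
    have e1 := ht.2
    have e2 := htX.2
    have e3 := htY.2
    rw [metric_eq] at e1 e2 e3 ⊢
    rw [hD]
    simp only [sub_mul, smul_mul_assoc, map_sub, map_smul, e1, e2, e3]
    simp
  suffices h : ∀ W, IsTan G3 (f u) W → metric .noncompact W (N u) = 0 →
      metric .noncompact D W = 0 by
    exact sub_eq_zero.1 (eq_zero_of_metric hDt (h D hDt hDN))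
  intro W hW hWN
  have hWN' : metric .noncompact W (horo.N u) = 0 := hWN
  have g := horo.gauss_eq hu horo.ξ_smooth horo.ξ_tan horo.ξ_orth X Y hW hWN'
  -- the vector `w`
  set w : V3 := -(W *ᵥ z u) with hw
  have hzw : form G3 (z u) w = 0 := by
    rw [hw, form_neg_right, tan_orth hW, neg_zero]
  have hwz : form G3 w (z u) = 0 := by
    rw [form_conj (gram_conj _ _) (z u), hzw, map_zero]
  have hnwre : (form G3 n0 w).re = 0 := by
    rw [metric_N hW, neg_eq_zero] at hWN
    rw [hw, form_neg_right, Complex.neg_re, neg_eq_zero]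
    rcases mul_eq_zero.1 hWN with h | h
    · have := r2_pos
      linarith
    · exact h
  set ρ : ℝ := (form G3 n0 w).im with hρ
  have hnw : form G3 n0 w = ρ * Complex.I := by
    apply Complex.ext
    · simp [hnwre]
    · simp [hρ]
  have hwn : form G3 w n0 = -(ρ * Complex.I) := by
    rw [form_conj (gram_conj _ _) n0, hnw]
    simp
  have hW' : W = ket G3 w (z u) + ket G3 (z u) w := by
    rw [tan_eq hW, ← hw, tv]
    exact add_comm _ _
  have hdX : ∀ X, horo.d u X = ket G3 (p u X) (z u) + ket G3 (z u) (p u X) := fun X =>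
    fderiv_f u X
  have hdN : ∀ X, fderiv ℝ horo.N u X = (r2 : ℂ) • (ket G3 n0 (p u X) + ket G3 (p u X) n0
      - (ket G3 (p u X) (z u) + ket G3 (z u) (p u X)
        + (ket G3 (p u X) (z u) + ket G3 (z u) (p u X)))) := fun X => by
    rw [← rsmul]
    exact fderiv_N u X
  have zpX : ∀ X, form G3 (z u) (p u X) = (sg u X : ℝ) * Complex.I := fun X => zp u X
  have pzX : ∀ X, form G3 (p u X) (z u) = -((sg u X : ℝ) * Complex.I) := fun X => pz u X
  have sym : ∀ a b : V3, form G3 a b + form G3 b a = ((2 * (form G3 a b).re : ℝ) : ℂ) := by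
    intro a b
    rw [form_conj (gram_conj _ _) a b, add_conj_re]
  -- the individual terms
  have T : ∀ X Y, metric .noncompact (W * horo.d u X + horo.d u X * W)
      (horo.d u Y * horo.ξ u + horo.ξ u * horo.d u Y) =
      -(r2 * (sg u X * (2 * (form G3 (p u Y) w).re) - ρ * (2 * (form G3 (p u X) (p u Y)).re)
        - 2 * sg u X * sg u Y * ρ + 2 * sg u Y * (2 * (form G3 w (p u X)).re))) := by
    intro X Y
    have h1 := anti_tv (zz u) (zpX X) (pzX X) hzw hwz
    rw [← hW', ← hdX X] at h1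
    have h2 := anti_xi (-(r2 : ℂ) * Complex.I) (zz u) (zpX Y) (pzX Y) (zn u) (nz u) (np u Y)
      (pn u Y)
    rw [← hdX Y, ← xi_eq u] at h2
    rw [metric, h1, h2, trace_prod _ (zz u) (zpX X) (pzX X) (zpX Y) (pzX Y) hzw hwz (zn u) (nz u)
      (np u X) (pn u X) hnw hwn, cI, sym, sym, sym]
    have e : ((r2 : ℂ) * ((sg u X : ℂ) * ((2 * (form G3 (p u Y) w).re : ℝ) : ℂ)
        - (ρ : ℂ) * ((2 * (form G3 (p u X) (p u Y)).re : ℝ) : ℂ)
        - 2 * (sg u X : ℂ) * (sg u Y : ℂ) * (ρ : ℂ)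
        + 2 * (sg u Y : ℂ) * ((2 * (form G3 w (p u X)).re : ℝ) : ℂ))) =
      ((r2 * (sg u X * (2 * (form G3 (p u Y) w).re) - ρ * (2 * (form G3 (p u X) (p u Y)).re)
        - 2 * sg u X * sg u Y * ρ + 2 * sg u Y * (2 * (form G3 w (p u X)).re)) : ℝ) : ℂ) := by
      push_cast
      ring
    rw [e, Complex.ofReal_re]
    simp [Space.sign]
  have B : ∀ Y, metric .noncompact (horo.ξ u) (fderiv ℝ horo.N u Y) = -(2 * sg u Y) := by
    intro Y
    rw [metric, xi_eq, hdN Y, mul_smul_comm, trace_smul,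
      tr_xi_dN _ (zz u) (zpX Y) (pzX Y) (zn u) (nz u) nn (np u Y) (pn u Y), cI, smul_eq_mul]
    have e : (r2 : ℂ) * ((r2 : ℂ) * (4 * (sg u Y : ℂ))) = ((r2 * r2 * (4 * sg u Y) : ℝ) : ℂ) := by
      push_cast
      ring
    rw [e, Complex.ofReal_re, r2_sq]
    simp [Space.sign]
    ring
  have C : ∀ X, metric .noncompact (fderiv ℝ horo.N u X) W =
      -(r2 * (2 * (form G3 (p u X) w).re - 2 * sg u X * ρ)) := by
    intro X
    rw [metric, hdN X, hW', smul_mul_assoc, trace_smul,
      tr_dN_W (zz u) (zpX X) (pzX X) (zn u) (nz u) hzw hwz hnw hwn, sym, smul_eq_mul]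
    have e : (r2 : ℂ) * (((2 * (form G3 (p u X) w).re : ℝ) : ℂ) - 2 * (sg u X : ℂ) * (ρ : ℂ)) =
      ((r2 * (2 * (form G3 (p u X) w).re - 2 * sg u X * ρ) : ℝ) : ℂ) := by
      push_cast
      ring
    rw [e, Complex.ofReal_re]
    simp [Space.sign]
  have E : ∀ X, metric .noncompact (horo.d u X) W = 2 * (form G3 (p u X) w).re := by
    intro X
    rw [metric, hdX X, hW', tr_d_W (zz u) hzw hwz, sym, Complex.neg_re, Complex.ofReal_re]
    simp [Space.sign]
  have F : ∀ X, horo.η u X = 2 * r2 * sg u X := by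
    intro X
    rw [Hypersurface.η, metric, hdX X, xi_eq,
      tr_d_xi _ (zz u) (zpX X) (pzX X) (zn u) (nz u) (np u X) (pn u X), cI]
    have e : -((r2 : ℂ) * (2 * (sg u X : ℂ))) = ((-(2 * r2 * sg u X) : ℝ) : ℂ) := by
      push_cast
      ring
    rw [e, Complex.ofReal_re]
    simp [Space.sign]
  have hwp : ∀ X, (form G3 w (p u X)).re = (form G3 (p u X) w).re := by
    intro X
    rw [form_conj (gram_conj _ _) (p u X) w, Complex.conj_re]
  have hpq : (form G3 (p u Y) (p u X)).re = (form G3 (p u X) (p u Y)).re := by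
    rw [form_conj (gram_conj _ _) (p u X) (p u Y), Complex.conj_re]
  rw [T X Y, T Y X, B X, B Y, C X, C Y, hwp, hwp, hpq] at g
  have E1 := E X
  have E2 := E Y
  rw [metric_eq] at g E1 E2 ⊢
  rw [hD]
  simp only [sub_mul, smul_mul_assoc, map_sub, map_smul, g, E1, E2, F, smul_eq_mul]
  ring

end Pool.Agent.Q206.Hyp.Horo
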