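import Pool.Agent.Q206.Hyp.Defs

/-!
# The connection used in `Defs` is the Levi-Civita connection of the induced metric

`proj u` is the orthogonal projection onto the tangent space of the hypersurface, and `nabla` is
torsion-free and compatible with the metric.
-/

open scoped Matrix ComplexConjugate ContDiff Matrix.Norms.Operator Topology
open Matrix

namespace Pool.Agent.Q206.Hyp

namespace Hypersurface

variable {s : Space} {m : ℕ} (M : Hypersurface s m)

/-- Testing with a tangent vector `W` of the hypersurface, the projection may be omitted. -/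
lemma metric_proj {u : Rn m} (hu : u ∈ M.U) (V : Mat m) {W : Mat m}
    (hW : IsTan (gram s m) (M.f u) W) (hWN : metric s W (M.N u) = 0) :
    metric s (M.proj u V) W = metric s V W := by
  have hid := (M.mem u hu).1
  have e3 : tau s m (M.N u * W) = 0 := by
    rw [tau_mul_comm, ← metric_eq]; exact hWN
  have hPWP : M.f u * W * M.f u = 0 := by
    have : M.f u * (M.f u * W + W * M.f u) * M.f u = M.f u * W * M.f u := by rw [hW.2]
    rw [mul_add, add_mul, ← mul_assoc (M.f u) (M.f u) W, hid, ← mul_assoc (M.f u) W (M.f u),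
      mul_assoc (M.f u * W) (M.f u) (M.f u), hid] at this
    simpa using this
  have e1 : tau s m (M.f u * V * (1 - M.f u) * W) = tau s m (V * ((1 - M.f u) * W * M.f u)) := by
    rw [mul_assoc (M.f u * V), mul_assoc (M.f u) V, tau_mul_comm s (M.f u), mul_assoc V]
  have e2 : tau s m ((1 - M.f u) * V * M.f u * W) = tau s m (V * (M.f u * W * (1 - M.f u))) := by
    rw [mul_assoc ((1 - M.f u) * V), mul_assoc (1 - M.f u) V, tau_mul_comm s (1 - M.f u),
      mul_assoc V]
  rw [metric_eq, metric_eq, proj, sub_mul, add_mul, smul_mul_assoc, map_sub, map_add, map_smul,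
    e1, e2, e3, smul_zero, sub_zero, ← map_add, ← mul_add]
  congr 2
  have e4 : (1 - M.f u) * W * M.f u + M.f u * W * (1 - M.f u) =
      (M.f u * W + W * M.f u) - (M.f u * W * M.f u + M.f u * W * M.f u) := by
    noncomm_ring
  rw [e4, hW.2, hPWP]
  simp

/-- `proj u` maps self-adjoint matrices to the tangent space of the hypersurface … -/
lemma proj_tan {u : Rn m} (hu : u ∈ M.U) {V : Mat m} (hV : adj (gram s m) V = V) :
    IsTan (gram s m) (M.f u) (M.proj u V) ∧ metric s (M.proj u V) (M.N u) = 0 := by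
  obtain ⟨hPP, hPa, -, -, -⟩ := M.mem u hu
  have h1 : IsTan (gram s m) (M.f u)
      (M.f u * V * (1 - M.f u) + (1 - M.f u) * V * M.f u) := by
    constructor
    · rw [adj_add, adj_mul (gram_mul s m), adj_mul (gram_mul s m), adj_mul (gram_mul s m),
        adj_mul (gram_mul s m), adj_sub, adj_one (gram_mul s m), hPa, hV]
      noncomm_ring
    · have e1 : M.f u * (1 - M.f u) = 0 := by rw [mul_sub, hPP, mul_one, sub_self]
      have e2 : (1 - M.f u) * M.f u = 0 := by rw [sub_mul, hPP, one_mul, sub_self]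
      calc M.f u * (M.f u * V * (1 - M.f u) + (1 - M.f u) * V * M.f u)
          + (M.f u * V * (1 - M.f u) + (1 - M.f u) * V * M.f u) * M.f u
          = (M.f u * M.f u) * V * (1 - M.f u) + (M.f u * (1 - M.f u)) * V * M.f u
            + (M.f u * V * ((1 - M.f u) * M.f u) + (1 - M.f u) * V * (M.f u * M.f u)) := by
            noncomm_ring
        _ = _ := by rw [hPP, e1, e2]; noncomm_ring
  refine ⟨?_, ?_⟩
  · rw [proj]
    exact h1.sub ((M.tangent_N u hu).smul _)
  · have hNt := M.tangent_N u hu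
    have hPNP : M.f u * M.N u * M.f u = 0 := by
      have : M.f u * (M.f u * M.N u + M.N u * M.f u) * M.f u = M.f u * M.N u * M.f u := by
        rw [hNt.2]
      rw [mul_add, add_mul, ← mul_assoc (M.f u) (M.f u) (M.N u), hPP,
        ← mul_assoc (M.f u) (M.N u) (M.f u), mul_assoc (M.f u * M.N u) (M.f u) (M.f u), hPP] at this
      simpa using this
    have e1 : tau s m (M.f u * V * (1 - M.f u) * M.N u) =
        tau s m (V * ((1 - M.f u) * M.N u * M.f u)) := by
      rw [mul_assoc (M.f u * V), mul_assoc (M.f u) V, tau_mul_comm s (M.f u), mul_assoc V]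
    have e2 : tau s m ((1 - M.f u) * V * M.f u * M.N u) =
        tau s m (V * (M.f u * M.N u * (1 - M.f u))) := by
      rw [mul_assoc ((1 - M.f u) * V), mul_assoc (1 - M.f u) V, tau_mul_comm s (1 - M.f u),
        mul_assoc V]
    have e3 : tau s m (M.N u * M.N u) = 1 := by
      rw [← metric_eq]; exact M.unit_N u hu
    have e4 : (1 - M.f u) * M.N u * M.f u + M.f u * M.N u * (1 - M.f u) =
        (M.f u * M.N u + M.N u * M.f u) - (M.f u * M.N u * M.f u + M.f u * M.N u * M.f u) := by
      noncomm_ring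
    rw [metric_eq, proj, sub_mul, add_mul, smul_mul_assoc, map_sub, map_add, map_smul, e1, e2,
      e3, ← map_add, ← mul_add, e4, hNt.2, hPNP, add_zero, sub_zero, ← metric_eq, smul_eq_mul,
      mul_one, sub_self]

/-- … and is orthogonal. -/
lemma proj_orth {u : Rn m} (hu : u ∈ M.U) (V : Mat m) {W : Mat m}
    (hW : IsTan (gram s m) (M.f u) W) (hWN : metric s W (M.N u) = 0) :
    metric s (V - M.proj u V) W = 0 := by
  have := M.metric_proj hu V hW hWN
  simp only [metric_eq, sub_mul, map_sub] at this ⊢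
  rw [this, sub_self]

/-- `nabla` is torsion-free. -/
theorem nabla_torsionFree {u : Rn m} (hu : u ∈ M.U) (X Y : Rn m) :
    M.nabla X (fun v => M.d v Y) u = M.nabla Y (fun v => M.d v X) u := by
  have cf : ContDiffAt ℝ ∞ M.f u := M.smooth_f.contDiffAt (M.isOpen.mem_nhds hu)
  have d2 : DifferentiableAt ℝ (fderiv ℝ M.f) u :=
    (cf.fderiv_right (m := 1) (by norm_num; exact ENat.LEInfty.out)).differentiableAt (by simp)
  have h : ∀ A B : Rn m, fderiv ℝ (fun v => M.d v A) u B = fderiv ℝ (fderiv ℝ M.f) u B A := by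
    intro A B
    exact fderiv_fderiv_apply d2 A B
  have symm : fderiv ℝ (fderiv ℝ M.f) u X Y = fderiv ℝ (fderiv ℝ M.f) u Y X :=
    (cf.isSymmSndFDerivAt (by simp; exact ENat.LEInfty.out)).eq X Y
  rw [nabla, nabla, h, h, symm]

/-- `nabla` is compatible with the metric. -/
theorem nabla_metric {u : Rn m} (hu : u ∈ M.U) {Z W : Rn m → Mat m}
    (hZ : ContDiffOn ℝ ∞ Z M.U) (hW : ContDiffOn ℝ ∞ W M.U)
    (hZt : ∀ v ∈ M.U, IsTan (gram s m) (M.f v) (Z v) ∧ metric s (Z v) (M.N v) = 0)
    (hWt : ∀ v ∈ M.U, IsTan (gram s m) (M.f v) (W v) ∧ metric s (W v) (M.N v) = 0) (X : Rn m) :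
    fderiv ℝ (fun v => metric s (Z v) (W v)) u X =
      metric s (M.nabla X Z u) (W u) + metric s (Z u) (M.nabla X W u) := by
  have hn := M.isOpen.mem_nhds hu
  have dZ : DifferentiableAt ℝ Z u := (hZ.contDiffAt hn).differentiableAt (by simp)
  have dW : DifferentiableAt ℝ W u := (hW.contDiffAt hn).differentiableAt (by simp)
  have h1 : metric s (M.nabla X Z u) (W u) = metric s (fderiv ℝ Z u X) (W u) :=
    M.metric_proj hu _ (hWt u hu).1 (hWt u hu).2
  have h2 : metric s (Z u) (M.nabla X W u) = metric s (Z u) (fderiv ℝ W u X) := by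
    rw [metric_comm, metric_comm s (Z u)]
    exact M.metric_proj hu _ (hZt u hu).1 (hZt u hu).2
  rw [h1, h2]
  have hz := hasDerivAt_line dZ X
  have hw := hasDerivAt_line dW X
  let τ : Mat m →L[ℝ] ℝ := tau s m
  have dm : DifferentiableAt ℝ (fun v => metric s (Z v) (W v)) u := by
    have : (fun v => metric s (Z v) (W v)) = fun v => τ (Z v * W v) := by
      funext v; rw [metric_eq]
    rw [this]
    exact τ.differentiableAt.comp u (dZ.mul dW)
  have h3 := hasDerivAt_line dm X
  have h4 : HasDerivAt (fun t : ℝ => metric s (Z (u + t • X)) (W (u + t • X)))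
      (τ (fderiv ℝ Z u X * W (u + (0 : ℝ) • X) + Z (u + (0 : ℝ) • X) * fderiv ℝ W u X)) 0 := by
    have : (fun t : ℝ => metric s (Z (u + t • X)) (W (u + t • X))) =
        fun t : ℝ => τ (Z (u + t • X) * W (u + t • X)) := by
      funext t; rw [metric_eq]
    rw [this]
    exact τ.hasFDerivAt.comp_hasDerivAt (0 : ℝ) (hz.mul hw)
  rw [h3.unique h4, metric_eq, metric_eq, ← map_add]
  simp only [zero_smul, add_zero]
  rfl

/-- The adjoint as a continuous real linear map. -/
noncomputable def adjL (s : Space) (m : ℕ) : Mat m →L[ℝ] Mat m :=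
  LinearMap.toContinuousLinearMap
    { toFun := fun X => adj (gram s m) X
      map_add' := fun X Y => adj_add _ X Y
      map_smul' := fun r X => adj_real_smul _ r X }

lemma adjL_apply (X : Mat m) : adjL s m X = adj (gram s m) X := rfl

lemma adj_fderiv {F : Rn m → Mat m} {U : Set (Rn m)} (hU : IsOpen U) {u : Rn m} (hu : u ∈ U)
    (hF : DifferentiableAt ℝ F u) (h : ∀ v ∈ U, adj (gram s m) (F v) = F v) (X : Rn m) :
    adj (gram s m) (fderiv ℝ F u X) = fderiv ℝ F u X := by
  have h1 := hasDerivAt_line hF X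
  have h2 : HasDerivAt (fun t : ℝ => adj (gram s m) (F (u + t • X)))
      (adj (gram s m) (fderiv ℝ F u X)) 0 :=
    (adjL s m).hasFDerivAt.comp_hasDerivAt (0 : ℝ) h1
  have h3 : (fun t : ℝ => adj (gram s m) (F (u + t • X))) =ᶠ[𝓝 0] fun t => F (u + t • X) := by
    have hc : Filter.Tendsto (fun t : ℝ => u + t • X) (𝓝 0) (𝓝 u) := by
      have : Continuous (fun t : ℝ => u + t • X) := by fun_prop
      simpa using this.tendsto 0
    filter_upwards [hc (hU.mem_nhds hu)] with t ht using h _ ht
  exact ((h1.congr_of_eventuallyEq h3).unique h2).symm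

lemma differentiableAt_nabla {u : Rn m} (hu : u ∈ M.U) {Z : Rn m → Mat m}
    (hZ : ContDiffOn ℝ ∞ Z M.U) (Y : Rn m) : DifferentiableAt ℝ (M.nabla Y Z) u := by
  have hn := M.isOpen.mem_nhds hu
  have cZ := hZ.contDiffAt hn
  have dZ2 : DifferentiableAt ℝ (fderiv ℝ Z) u :=
    (cZ.fderiv_right (m := 1) (by norm_num; exact ENat.LEInfty.out)).differentiableAt (by simp)
  rw [nabla_eq]
  exact differentiableAt_nab (tau s m) ((M.smooth_f.contDiffAt hn).differentiableAt (by simp))
    ((M.smooth_N.contDiffAt hn).differentiableAt (by simp)) dZ2 Y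

/-- Covariant derivatives of tangent fields are tangent. -/
lemma nabla_tan {u : Rn m} (hu : u ∈ M.U) {Z : Rn m → Mat m} (hZ : ContDiffOn ℝ ∞ Z M.U)
    (hZt : ∀ v ∈ M.U, adj (gram s m) (Z v) = Z v) (Y : Rn m) :
    IsTan (gram s m) (M.f u) (M.nabla Y Z u) ∧ metric s (M.nabla Y Z u) (M.N u) = 0 :=
  M.proj_tan hu (adj_fderiv M.isOpen hu
    ((hZ.contDiffAt (M.isOpen.mem_nhds hu)).differentiableAt (by simp)) hZt Y)

/-- `R(X, Y) Z` is a tangent vector of the hypersurface. -/
lemma R_tan {u : Rn m} (hu : u ∈ M.U) {Z : Rn m → Mat m} (hZ : ContDiffOn ℝ ∞ Z M.U)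
    (hZt : ∀ v ∈ M.U, adj (gram s m) (Z v) = Z v) (X Y : Rn m) :
    IsTan (gram s m) (M.f u) (M.R X Y Z u) ∧ metric s (M.R X Y Z u) (M.N u) = 0 := by
  have h : ∀ A B : Rn m, IsTan (gram s m) (M.f u) (M.nabla A (M.nabla B Z) u) ∧
      metric s (M.nabla A (M.nabla B Z) u) (M.N u) = 0 := fun A B =>
    M.proj_tan hu (adj_fderiv M.isOpen hu (M.differentiableAt_nabla hu hZ B)
      (fun v hv => (M.nabla_tan hv hZ hZt B).1.1) A)
  have h1 := h X Y
  have h2 := h Y X
  refine ⟨h1.1.sub h2.1, ?_⟩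
  have e1 := h1.2
  have e2 := h2.2
  rw [metric_eq] at e1 e2 ⊢
  rw [R, sub_mul, map_sub, e1, e2, sub_zero]

end Hypersurface

end Pool.Agent.Q206.Hyp
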